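import Pool.Agent.N198.TP.Reduced

/-!
The condition on the small primes.
-/

namespace Pool.Agent.N198.TP

open Finset Pool.Agent.H916R2 Pool.Agent.N992 Pool.Agent.N993 Pool.Agent.H916K Pool.Agent.N997.P

/-- The number of those of the numbers `4` and the odd primes `p ≤ B` which divide `m`. -/
def smallCount (B m : ℕ) : ℕ :=
  ((m.primeFactors.erase 2).filter (· ≤ B)).card + (if 4 ∣ m then 1 else 0)

/-- Every prime factor `p ≤ B` of `m` congruent to 1 modulo 4 sees only squares: all other odd prime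
factors `q ≤ B` of `m`, and 2 if `4` divides `m`, are squares modulo `p`. -/
def SmallSquares (B m : ℕ) : Prop :=
  ∀ p : ℕ, p.Prime → p ∣ m → p ≤ B → p % 4 = 1 →
    (∀ q : ℕ, q.Prime → q ∣ m → q ≤ B → q ≠ 2 → q ≠ p → IsSquare (q : ZMod p)) ∧
      (4 ∣ m → p % 8 = 1)

lemma prime_le_of_dvd_smallDegree {k B p : ℕ} (hp : p.Prime) (h : p ∣ Pool.Agent.N997.P.smallDegree k B) : p ≤ B := by
  unfold Pool.Agent.N997.P.smallDegree at h
  obtain ⟨q, hq, hpq⟩ := (Prime.dvd_finset_prod_iff hp.prime _).mp h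
  rw [mem_filter, mem_range] at hq
  have h1 := (Nat.prime_dvd_prime_iff_eq hp hq.2).mp (hp.dvd_of_dvd_pow hpq)
  omega

lemma reduced_count (r m : ℕ) (hm : 0 < m) (h : smallCount (primeBound r m) m ≤ 3) :
    ((reducedDegree r m).primeFactors.erase 2).card +
      (if 4 ∣ reducedDegree r m then 1 else 0) ≤ 3 := by
  refine le_trans ?_ h
  unfold smallCount
  refine add_le_add (card_le_card ?_) ?_
  · intro p hp
    rw [mem_erase, Nat.mem_primeFactors] at hp
    rw [mem_filter, mem_erase, Nat.mem_primeFactors]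
    refine ⟨⟨hp.1, hp.2.1, hp.2.2.1.trans (Nat.gcd_dvd_left _ _), hm.ne'⟩, ?_⟩
    exact prime_le_of_dvd_smallDegree hp.2.1 (hp.2.2.1.trans (Nat.gcd_dvd_right _ _))
  · by_cases h4 : 4 ∣ reducedDegree r m
    · rw [if_pos h4, if_pos (h4.trans (Nat.gcd_dvd_left _ _))]
    · rw [if_neg h4]; exact Nat.zero_le _

lemma reduced_squares (r m : ℕ) (h : SmallSquares (primeBound r m) m) :
    MutualSquares (reducedDegree r m) := by
  intro p hp hpg hp4
  have hpB := prime_le_of_dvd_smallDegree hp (hpg.trans (Nat.gcd_dvd_right _ _))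
  obtain ⟨h1, h2⟩ := h p hp (hpg.trans (Nat.gcd_dvd_left _ _)) hpB hp4
  refine ⟨fun q hq hqg hq2 hqp => h1 q hq (hqg.trans (Nat.gcd_dvd_left _ _))
    (prime_le_of_dvd_smallDegree hq (hqg.trans (Nat.gcd_dvd_right _ _))) hq2 hqp,
    fun h4 => h2 (h4.trans (Nat.gcd_dvd_left _ _))⟩

/-- The main theorem, in terms of the small primes dividing the degree. -/
theorem main_small (r m : ℕ) [NeZero m]
    (hg : smallCount (primeBound r m) m ≤ 3 ∨ SmallSquares (primeBound r m) m)
    (s : Multiset (ZMod m × ℤ)) (hne : s ≠ 0) (heven : Even (Multiset.card s))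
    (hcard : Multiset.card s ≤ 2 * r) (h0 : ∀ z ∈ s, z.1 ≠ 0 ∧ z.2 ≠ 0)
    (hsum : (s.map Prod.fst).sum = 0) (hR : RationalClass m s) :
    ∃ l : ℕ, ∃ _ : NeZero (l * m), Generated (l * m) (ModularCharacter (l * m))
        ((s.map Prod.fst).map (fun a => ((l * a.val : ℕ) : ZMod (l * m)))) := by
  have hm : 0 < m := NeZero.pos m
  refine main_reduced r m hm ?_ s hne heven hcard h0 hsum hR
  rcases hg with h | h
  · exact Or.inr (reduced_count r m hm h)
  · exact Or.inl (reduced_squares r m h)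

end Pool.Agent.N198.TP
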