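import Pool.Agent.N198.TP.Main
import Pool.Agent.N993.Fin

/-!
Hodge characters with even parities of the degrees with at most three primes.
-/

set_option linter.unusedSectionVars false

namespace Pool.Agent.N198.TP

open Finset Pool.Agent.H916R2 Pool.Agent.N992 Pool.Agent.N993 Pool.Agent.N998 Pool.Agent.H916K

/-- Reduction to a product of different odd primes and possibly 4. -/
theorem exists_red (m : ℕ) [NeZero m] : ∃ (S : Finset ℕ) (m0 k : ℕ) (_ : NeZero m0),
    (∀ x ∈ S, ((x.Prime ∧ x % 2 = 1) ∨ x = 4)) ∧ (∀ p ∈ S, p.Prime → p ∣ m) ∧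
    S.card = (m.primeFactors.erase 2).card + (if 4 ∣ m then 1 else 0) ∧ ∏ x ∈ S, x = m0 ∧
    k * m0 = m ∧ Red m m0 k := by
  classical
  have hm0 : m ≠ 0 := NeZero.ne m
  set P := m.primeFactors.erase 2 with hP
  have hPp : ∀ x ∈ P, x.Prime ∧ x % 2 = 1 ∧ x ∣ m := by
    intro x hx
    have h1 := Nat.prime_of_mem_primeFactors (mem_of_mem_erase hx)
    refine ⟨h1, ?_, Nat.dvd_of_mem_primeFactors (mem_of_mem_erase hx)⟩
    rcases h1.eq_two_or_odd with h | h
    · exact absurd h (ne_of_mem_erase hx)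
    · exact h
  have hPmem : ∀ p, p.Prime → p ∣ m → p ≠ 2 → p ∈ P := fun p hp hpm h2 =>
    mem_erase.mpr ⟨h2, Nat.mem_primeFactors.mpr ⟨hp, hpm, hm0⟩⟩
  have h4P : 4 ∉ P := fun h => absurd (hPp 4 h).1 (by norm_num)
  have hdvdP : ∏ x ∈ P, x ∣ m := by
    apply Finset.prod_dvd_of_isRelPrime
    · intro a ha b hb hab
      exact Nat.coprime_iff_isRelPrime.mp
        ((Nat.coprime_primes (hPp a ha).1 (hPp b hb).1).mpr hab)
    · intro x hx; exact (hPp x hx).2.2
  have hoddP : (∏ x ∈ P, x) % 2 = 1 := by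
    rw [← Nat.odd_iff]
    refine Finset.prod_induction _ Odd (fun a b => Odd.mul) odd_one fun x hx => ?_
    exact Nat.odd_iff.mpr (hPp x hx).2.1
  have hP0 : ∏ x ∈ P, x ≠ 0 := by omega
  have hprimes : ∀ p, p.Prime → p ∣ m → p ≠ 2 → p ∣ ∏ x ∈ P, x := fun p hp hpm h2 =>
    dvd_prod_of_mem (fun x => x) (hPmem p hp hpm h2)
  by_cases h4 : 4 ∣ m
  · have hm0' : ∏ x ∈ insert 4 P, x = 4 * ∏ x ∈ P, x := prod_insert h4P
    have hNZ : NeZero (∏ x ∈ insert 4 P, x) := ⟨by rw [hm0']; omega⟩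
    have hcop : Nat.Coprime 4 (∏ x ∈ P, x) := by
      have : Nat.Coprime (2 ^ 2) (∏ x ∈ P, x) := by
        apply Nat.Coprime.pow_left
        rw [Nat.coprime_two_left]; exact Nat.odd_iff.mpr hoddP
      exact this
    have hdvd : ∏ x ∈ insert 4 P, x ∣ m := by
      rw [hm0']; exact hcop.mul_dvd_of_dvd_of_dvd h4 hdvdP
    obtain ⟨k, hk⟩ := hdvd
    have hk' : k * ∏ x ∈ insert 4 P, x = m := (mul_comm _ _).trans hk.symm
    refine ⟨insert 4 P, _, k, hNZ, ?_, ?_, ?_, rfl, hk', red_exists _ m _ k rfl hk' ?_ ?_⟩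
    · intro x hx
      rcases mem_insert.mp hx with h | h
      · right; exact h
      · left; exact ⟨(hPp x h).1, (hPp x h).2.1⟩
    · intro p hp _
      rcases mem_insert.mp hp with h | h
      · rw [h]; exact h4
      · exact (hPp p h).2.2
    · rw [card_insert_of_notMem h4P, if_pos h4]
    · intro p hp hpm
      by_cases h2 : p = 2
      · rw [h2, hm0']
        exact Dvd.dvd.mul_right (by norm_num) _
      · rw [hm0']; exact (hprimes p hp hpm h2).mul_left 4
    · intro _; rw [hm0']; exact dvd_mul_right 4 _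
  · have hNZ : NeZero (∏ x ∈ P, x) := ⟨hP0⟩
    have h1 : ∀ x ∈ P, (x.Prime ∧ x % 2 = 1) ∨ x = 4 := fun x hx =>
      Or.inl ⟨(hPp x hx).1, (hPp x hx).2.1⟩
    have h3 : P.card = P.card + (if 4 ∣ m then 1 else 0) := by rw [if_neg h4, add_zero]
    by_cases h2 : 2 ∣ m
    · have h2N : 2 * ∏ x ∈ P, x ∣ m := by
        apply Nat.Coprime.mul_dvd_of_dvd_of_dvd _ h2 hdvdP
        rw [Nat.coprime_two_left]; exact Nat.odd_iff.mpr hoddP
      obtain ⟨k, hk⟩ := h2N
      have hNZ2 : NeZero (2 * ∏ x ∈ P, x) := ⟨Nat.mul_ne_zero two_ne_zero hP0⟩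
      have hk' : k * (2 * ∏ x ∈ P, x) = m := (mul_comm _ _).trans hk.symm
      have hr1 : Red m (2 * ∏ x ∈ P, x) k := by
        refine red_exists _ m _ k rfl hk' ?_ (fun h => absurd h h4)
        intro p hp hpm
        by_cases hp2 : p = 2
        · rw [hp2]; exact dvd_mul_right 2 _
        · exact (hprimes p hp hpm hp2).mul_left 2
      have hr2 : Red m (∏ x ∈ P, x) (k * 2) := Red.trans hk' hr1 (red_two hoddP)
      exact ⟨P, _, k * 2, hNZ, h1, fun p hp _ => (hPp p hp).2.2, h3, rfl,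
        (mul_assoc _ _ _).trans hk', hr2⟩
    · obtain ⟨k, hk⟩ := hdvdP
      have hk' : k * ∏ x ∈ P, x = m := (mul_comm _ _).trans hk.symm
      refine ⟨P, _, k, hNZ, h1, fun p hp _ => (hPp p hp).2.2, h3, rfl, hk',
        red_exists _ m _ k rfl hk' ?_ (fun h => absurd h h4)⟩
      intro p hp hpm
      exact hprimes p hp hpm (fun h => h2 (h ▸ hpm))

lemma oddDist_pair {m : ℕ} {Q R : Type} [AddCommGroup Q] [AddCommGroup R] {c : ZMod m → Q}
    {d : ZMod m → R} (hc : OddDist c) (hd : OddDist d) : OddDist (fun a => (c a, d a)) where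
  neg := fun a => Prod.ext (hc.neg a) (hd.neg a)
  half := fun a ha => Prod.ext (hc.half a ha) (hd.half a ha)
  dist := fun p e hp hpe a => by
    refine Prod.ext ?_ ?_
    · rw [Prod.fst_sum]; exact hc.dist p e hp hpe a
    · rw [Prod.snd_sum]; exact hd.dist p e hp hpe a

lemma oddDist_pi {m : ℕ} {κ : Type} {R : Type} [AddCommGroup R] {d : κ → ZMod m → R}
    (hd : ∀ i, OddDist (d i)) : OddDist (fun a => (fun i => d i a)) where
  neg := fun a => funext fun i => (hd i).neg a
  half := fun a ha => funext fun i => (hd i).half a ha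
  dist := fun p e hp hpe a => by
    funext i
    rw [Finset.sum_apply]
    exact (hd i).dist p e hp hpe a

/-- **Hodge characters with even parities.** The degree `m` has at most three odd prime factors, at
most two if `4` divides `m`. -/
theorem span_even (m : ℕ) [NeZero m]
    (hm : (m.primeFactors.erase 2).card + (if 4 ∣ m then 1 else 0) ≤ 3) :
    ∃ l : ℕ, ∃ _ : NeZero (l * m), ∀ s : Multiset (ZMod m), IsHodge m s → s ≠ 0 →
      (∀ p : ℕ, p.Prime → p ∣ m → p % 4 = 1 → (s.map (pr p m)).sum = 0) →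
      Generated (l * m) (ModularCharacter (l * m)) (s.map (iota l : ZMod m → ZMod (l * m))) := by
  classical
  obtain ⟨S, m0, k, hNZ, hadm, hSm, hcard, hprod, hk, hred⟩ := exists_red m
  set P : Finset ℕ := m.primeFactors.filter (fun p => p % 4 = 1) with hP
  have hPp : ∀ p ∈ P, p.Prime ∧ p % 4 = 1 := fun p hp =>
    ⟨Nat.prime_of_mem_primeFactors (mem_filter.mp hp).1, (mem_filter.mp hp).2⟩
  obtain ⟨A, hA, hns⟩ := exists_choice P hPp
  have hAdm : Adm P S := ⟨hadm, fun p hp hpp hp4 => mem_filter.mpr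
    ⟨Nat.mem_primeFactors.mpr ⟨hpp, hSm p hp hpp, NeZero.ne m⟩, hp4⟩⟩
  obtain ⟨l, hl0, hmain⟩ := main_level hA hns (hcard ▸ hm) hAdm
  have hlm : NeZero (l * m) := ⟨Nat.mul_ne_zero hl0 (NeZero.ne m)⟩
  refine ⟨l, hlm, fun s hs hne hpar => ?_⟩
  have hkN : k * (l * m0) = l * m := by rw [← hk]; ring
  set c := cQ (l * m) (ModularCharacter (l * m)) with hc
  have hcD : OddDist c := cQ_oddDist
  have hsl : IsHodge (l * m) (s.map (iota l : ZMod m → ZMod (l * m))) := hs.iota rfl
  have hprD : OddDist (fun a : ZMod m => fun p : {p // p ∈ P} => pr (p : ℕ) m a) :=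
    oddDist_pi fun p => pr_odd (hPp p p.2).1 (by have := (hPp p p.2).2; omega)
  obtain ⟨x0, hx0, he⟩ := hred _ _
    (oddDist_pair (hcD.comp_iota (m0 := m) rfl) hprD) _ hs.rel
  have he1 := congrArg Prod.fst he
  have he2 := congrArg Prod.snd he
  rw [Prod.fst_sum, Prod.fst_sum] at he1
  rw [Prod.snd_sum, Prod.snd_sum] at he2
  simp only [Prod.smul_fst] at he1
  simp only [Prod.smul_snd] at he2
  have hpar0 : ∀ p ∈ P, ∑ b, x0 b • pr p m0 b = 0 := by
    intro p hp
    have h1 := congrFun he2 ⟨p, hp⟩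
    rw [Finset.sum_apply, Finset.sum_apply] at h1
    simp only [Pi.smul_apply] at h1
    have h2 : ∑ a, ((s.count a : ℕ) : ℤ) • pr p m a = (s.map (pr p m)).sum := sum_count s (pr p m)
    have hpm : p ∣ m := Nat.dvd_of_mem_primeFactors (mem_filter.mp hp).1
    rw [h2, hpar p (hPp p hp).1 hpm (hPp p hp).2] at h1
    rw [h1]
    refine sum_congr rfl fun b _ => ?_
    rw [pr_iota (hPp p hp).1 hk]
  have h1 : ∀ b : ZMod m0, c (iota l (iota k b : ZMod m)) = c (iota (k * l) b) := by
    intro b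
    rw [iota_comp rfl, mul_comm l k]
  simp only [h1] at he1
  have h2 := hmain k (l * m) m0 hprod hkN _ c hcD (by
    intro s0 hs0
    exact cQ_sum_eq_zero (Generated.ofBase (m := l * m) (base := ModularCharacter (l * m)) s0 hs0))
    x0 hx0 hpar0
  rw [h2, sum_count] at he1
  have h4 : ((s.map (iota l : ZMod m → ZMod (l * m))).map c).sum = 0 := by
    rw [Multiset.map_map]; exact he1
  rw [hc, cQ_sum, QuotientAddGroup.eq_zero_iff] at h4
  refine generated_of_mem_LL (fun s hs => ⟨hs.1.1, hs.1.2.1⟩) (fun s hs => hs.neg) hsl.1 hsl.2.1 ?_ h4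
  intro h5
  exact hne (Multiset.map_eq_zero.mp h5)

/-- The converse. -/
theorem even_of_generated {m : ℕ} [NeZero m] {p : ℕ} (hp : p.Prime) (hp4 : p % 4 = 1)
    {s : Multiset (ZMod m)} (h : Generated m (ModularCharacter m) s) :
    (s.map (pr p m)).sum = 0 := by
  have hD : OddDist (pr p m) := pr_odd hp (by omega)
  induction h with
  | ofBase s hs => exact pr_modular hp hp4 hs
  | pair a ha =>
    rw [Multiset.insert_eq_cons, Multiset.map_cons, Multiset.sum_cons, Multiset.map_singleton,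
      Multiset.sum_singleton, hD.neg, add_neg_cancel]
  | standard q hq hq2 hqm a ha =>
    obtain ⟨d, hd⟩ := hqm
    have hd2 : m / q = d := by rw [hd]; exact Nat.mul_div_cancel_left d hq.pos
    rw [Multiset.map_cons, Multiset.sum_cons, Multiset.map_map, hD.neg, ← hD.dist q d hq hd.symm a,
      hd2]
    exact neg_add_cancel _
  | standardTwo hm a ha =>
    obtain ⟨d, hd⟩ := hm
    have hd2 : m / 2 = d := by rw [hd]; exact Nat.mul_div_cancel_left d (by norm_num)
    have h1 := hD.dist 2 d Nat.prime_two hd.symm a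
    rw [sum_range_succ, sum_range_one] at h1
    have h2 : pr p m (d : ZMod m) = 0 := by
      apply hD.half
      have : ((2 * d : ℕ) : ZMod m) = 0 := by rw [← hd]; simp
      push_cast at this
      linear_combination this
    simp only [Multiset.insert_eq_cons, Multiset.map_cons, Multiset.sum_cons,
      Multiset.map_singleton, Multiset.sum_singleton, hd2]
    rw [h2, hD.neg]
    push_cast at h1
    rw [← h1, zero_mul, add_zero, one_mul]
    ring
  | join s t _ _ h1 h2 => rw [Multiset.map_add, Multiset.sum_add, h1, h2, add_zero]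
  | cancel a s _ h1 =>
    rw [Multiset.map_cons, Multiset.sum_cons, Multiset.map_cons, Multiset.sum_cons, hD.neg] at h1
    rw [← h1]; ring

end Pool.Agent.N198.TP
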