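import Pool.Agent.N993.NonRes

/-!
Sets of odd primes (and possibly 4) for which all relations follow from the modular characters and
the relations of some pairs, in some multiple of the level.
-/

set_option linter.unusedSectionVars false

namespace Pool.Agent.N198.TP

open Finset Pool.Agent.H916R2 Pool.Agent.N992 Pool.Agent.N993

/-- The distribution kills the modular characters and all relations of the levels `p * a p`. -/
def Kills (P : Finset ℕ) (a : ℕ → ℕ) {N : ℕ} [NeZero N] {Q : Type} [AddCommGroup Q]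
    (c : ZMod N → Q) : Prop :=
  (∀ s, ModularCharacter N s → (s.map c).sum = 0) ∧
  ∀ p ∈ P, ∀ (m0 k : ℕ) [NeZero m0], p * a p = m0 → k * m0 = N →
    ∀ x : ZMod m0 → ℤ, Rel x → ∑ b, x b • c (iota k b) = 0

variable {P : Finset ℕ} {a : ℕ → ℕ}

lemma Kills.comp {k m0 m : ℕ} [NeZero m] [NeZero m0] (h : k * m0 = m) {Q : Type} [AddCommGroup Q]
    {c : ZMod m → Q} (hc : Kills P a c) : Kills P a (fun b : ZMod m0 => c (iota k b)) := by
  refine ⟨fun s hs => ?_, fun p hp m1 k1 _ h1 h2 x hx => ?_⟩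
  · have h3 := hc.1 _ (hs.lift h)
    rw [Multiset.map_map] at h3
    exact h3
  · have h3 := hc.2 p hp m1 (k * k1) h1 (by rw [mul_assoc, h2, h]) x hx
    rw [← h3]
    refine sum_congr rfl fun b _ => ?_
    beta_reduce
    rw [iota_comp h]

/-- All relations of level `∏ T` are killed in some multiple of the level. -/
def Good (P : Finset ℕ) (a : ℕ → ℕ) (T : Finset ℕ) : Prop :=
  ∃ l : ℕ, l ≠ 0 ∧ ∀ (k N mT : ℕ) [NeZero N] [NeZero mT], ∏ x ∈ T, x = mT → k * (l * mT) = N →
    ∀ (Q : Type) [AddCommGroup Q] (c : ZMod N → Q), OddDist c → Kills P a c →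
    ∀ x : ZMod mT → ℤ, Rel x → ∑ b, x b • c (iota (k * l) b) = 0

lemma good_of_level {T : Finset ℕ} {l : ℕ} (hl : l ≠ 0)
    (h : ∀ (N mT : ℕ) [NeZero N] [NeZero mT], ∏ x ∈ T, x = mT → l * mT = N →
      ∀ (Q : Type) [AddCommGroup Q] (c : ZMod N → Q), OddDist c →
      Kills P a c →
      ∀ x : ZMod mT → ℤ, Rel x → ∑ b, x b • c (iota l b) = 0) : Good P a T := by
  refine ⟨l, hl, ?_⟩
  intro k N mT _ _ hmT hk Q _ c hc hkill x hx
  have hNZ : NeZero (l * mT) := ⟨Nat.mul_ne_zero hl (NeZero.ne mT)⟩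
  have h1 := h (l * mT) mT hmT rfl Q (fun d : ZMod (l * mT) => c (iota k d)) (hc.comp_iota hk)
    (hkill.comp hk) x hx
  have h3 : ∀ b : ZMod mT, c (iota k (iota l b : ZMod (l * mT))) = c (iota (k * l) b) := by
    intro b
    rw [iota_comp hk]
  simp only [h3] at h1
  exact h1

/-- Adding information about subsets. -/
theorem good_core {U S : Finset ℕ} (hU : ∀ x ∈ U, (x.Prime ∧ x % 2 = 1) ∨ x = 4) (hSU : S ⊆ U)
    (F : Finset (Finset ℕ)) (hF : ∀ T ∈ F, T ⊆ U ∧ Good P a T)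
    (hmain : ∀ (_ : ∀ i : Ix U, NeZero (nn U i)) (ν : (cyc (nn U)).Pt → ℤ),
      (cyc (nn U)).IsD univ ν → (cyc (nn U)).Ty 1 univ ν →
      ((cyc (nn U)).small (qq U)).Img 1 univ (Dat.sm (qq U) ν) →
      (∀ T ∈ F, (cyc (nn U)).Img 1 (T.subtype (· ∈ U)) ν) →
      (cyc (nn U)).Img 1 (S.subtype (· ∈ U)) ν) : Good P a S := by
  classical
  have hnz : ∀ i : Ix U, NeZero (nn U i) := fun i =>
    ⟨by have := one_lt_of (hU i i.2); change (i : ℕ) ≠ 0; omega⟩
  have hn : Adm' (nn U) := fun i => hU i i.2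
  have hco : Pairwise (fun i j : Ix U => (nn U i).Coprime (nn U j)) := fun i j hij =>
    coprime_of (hU i i.2) (hU j j.2) (fun h => hij (Subtype.ext h))
  have hprod : ∀ T : Finset ℕ, T ⊆ U → ∏ i ∈ T.subtype (· ∈ U), nn U i = ∏ x ∈ T, x := fun T hT =>
    Finset.prod_subtype_of_mem (fun x => x) (fun x hx => hT hx)
  have hN0 : ∏ i : Ix U, nn U i ≠ 0 := prod_ne_zero_iff.mpr fun i _ => (hnz i).out
  have hNZ : NeZero (∏ i : Ix U, nn U i) := ⟨hN0⟩
  -- the multipliers
  choose l hl0 hl using fun (T : Finset ℕ) (hT : T ∈ F) => (hF T hT).2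
  set L : ℕ := ∏ T ∈ F.attach, l T.1 T.2 with hL
  have hL0 : L ≠ 0 := prod_ne_zero_iff.mpr fun T _ => hl0 T.1 T.2
  have hlL : ∀ T (hT : T ∈ F), l T hT ∣ L := fun T hT =>
    dvd_prod_of_mem (fun T : {x // x ∈ F} => l T.1 T.2) (mem_attach F ⟨T, hT⟩)
  -- the multiplier for `S`
  have hSdvd : ∏ x ∈ S, x ∣ ∏ i : Ix U, nn U i := by
    rw [← hprod S hSU]
    exact prod_dvd_prod_of_subset _ _ _ (subset_univ _)
  obtain ⟨d, hd⟩ := hSdvd
  have hd0 : d ≠ 0 := by rintro rfl; rw [mul_zero] at hd; exact hN0 hd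
  refine good_of_level (l := L * d) (Nat.mul_ne_zero hL0 hd0) ?_
  intro N mS _ _ hmS hN Q _ c hc hk x hx
  have hLN : L * ∏ i : Ix U, nn U i = N := by rw [hd, hmS, ← hN]; ring
  have hdS : d * mS = ∏ i : Ix U, nn U i := by rw [hd, hmS]; ring
  set c1 : ZMod (∏ i : Ix U, nn U i) → Q := fun a => c (iota L a) with hc1
  have hc1D : OddDist c1 := hc.comp_iota hLN
  have hk1 : ∀ s, ModularCharacter (∏ i : Ix U, nn U i) s → (s.map c1).sum = 0 := by
    intro s hs
    exact (hk.comp hLN).1 s hs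
  have hc1iota : ∀ (m0 l0 : ℕ) [NeZero m0], l0 * m0 = ∏ i : Ix U, nn U i → ∀ b : ZMod m0,
      c1 (iota l0 b) = c (iota (L * l0) b) := by
    intro m0 l0 _ h0 b
    rw [hc1]
    beta_reduce
    rw [iota_comp hLN]
  have h1 := coreG hn hco rfl (ZMod.prodEquivPi (nn U) hco).symm hc1D hk1 (S.subtype (· ∈ U))
    (fun T' => ∃ T ∈ F, T' = T.subtype (· ∈ U)) (by
      rintro _ ⟨T, hTF, rfl⟩ mT lT _ hmT hlT y hy
      obtain ⟨e, he⟩ := hlL T hTF
      have hTU := (hF T hTF).1
      rw [hprod T hTU] at hmT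
      have h2 := hl T hTF (e * lT) N mT hmT (by
        rw [← hLN, ← hlT, he]; ring) Q c hc hk y hy
      have h3 : e * lT * l T hTF = L * lT := by rw [he]; ring
      rw [h3] at h2
      simp only [hc1iota mT lT hlT]
      exact h2) (by
      intro ν h1 h2 h3 h4
      exact hmain hnz ν h1 h2 h3 fun T hT => h4 _ ⟨T, hT, rfl⟩)
    (by rw [hprod S hSU]; exact hmS) hdS x hx
  simp only [hc1iota mS d hdS] at h1
  exact h1

/-- Detection by the subsets with an even number of elements. -/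
theorem good_of_even {S : Finset ℕ} (hS : ∀ x ∈ S, (x.Prime ∧ x % 2 = 1) ∨ x = 4)
    (h : ∀ T ⊆ S, Even T.card → Good P a T) : Good P a S := by
  classical
  refine good_core hS (Subset.refl S) (S.powerset.filter (fun T => Even T.card)) ?_ ?_
  · intro T hT
    rw [mem_filter, mem_powerset] at hT
    exact ⟨hT.1, h T hT.1 hT.2⟩
  · intro _ ν hν hty _ hT
    have hfree : ∀ i, (cyc (nn S)).c i ≠ 1 := fun i => neg_one_ne_one (hS i i.2)
    have hun : S.subtype (· ∈ S) = univ := by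
      ext x; simp
    rw [hun]
    refine Dat.detect hfree univ 1 (by norm_num) ν hν hty ?_
    intro T' _ hcard
    have heven : Even T'.card := by
      by_contra h1
      rw [Nat.not_even_iff_odd] at h1
      rw [h1.neg_one_pow] at hcard
      norm_num at hcard
    set T : Finset ℕ := T'.map (Function.Embedding.subtype _) with hTdef
    have hTS : T ⊆ S := by
      intro x hx
      rw [hTdef, mem_map] at hx
      obtain ⟨y, _, rfl⟩ := hx
      exact y.2
    have hTT : T.subtype (· ∈ S) = T' := by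
      ext y
      rw [mem_subtype, hTdef, mem_map]
      constructor
      · rintro ⟨z, hz, he⟩
        have : z = y := Subtype.ext he
        rwa [← this]
      · intro hy
        exact ⟨y, hy, rfl⟩
    rw [← hTT]
    apply hT
    rw [mem_filter, mem_powerset]
    refine ⟨hTS, ?_⟩
    rw [hTdef, card_map]
    exact heven

/-- The sets with only squares. -/
theorem good_of_squares {S : Finset ℕ} (hS : ∀ x ∈ S, (x.Prime ∧ x % 2 = 1) ∨ x = 4)
    (hsq : ∀ p ∈ S, p % 4 = 1 → (∀ j ∈ S, j ≠ p → IsSquare ((j : ℕ) : ZMod p)) ∧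
      (4 ∈ S → IsSquare ((2 : ℕ) : ZMod p))) : Good P a S := by
  classical
  have h0 : ∏ x ∈ S, x ≠ 0 := by
    rw [prod_ne_zero_iff]
    intro x hx
    have := one_lt_of (hS x hx); omega
  have hNZ : NeZero (∏ x ∈ S, x) := ⟨h0⟩
  obtain ⟨l, N, hN, hl, _, h⟩ := core_set S hS hsq (∏ x ∈ S, x) rfl
  have hl0 : l ≠ 0 := by rintro rfl; rw [zero_mul] at hl; exact hN.out hl.symm
  refine good_of_level hl0 ?_
  intro N' mT _ _ hmT hN' Q _ c hc hk x hx
  subst hmT
  have hNN : N = N' := hl.symm.trans hN'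
  subst hNN
  exact h Q c hc hk.1 x hx


end Pool.Agent.N198.TP
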