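import Pool.Agent.N198.TP.Sq
import Pool.Agent.H916K.MainTwo

/-!
The parity of the number of entries of `p`-power order.
-/

set_option linter.unusedSectionVars false

namespace Pool.Agent.N198.TP

open Finset Pool.Agent.H916R2 Pool.Agent.N992 Pool.Agent.H916K

/-- the parity distribution at the prime `p` -/
def pr (p m : ℕ) : ZMod m → ZMod 2 := par m (p ^ m.factorization p)

lemma pr_odd {p m : ℕ} [NeZero m] (hp : p.Prime) (hp2 : p ≠ 2) : OddDist (pr p m) :=
  par_oddDist (e := m.factorization p) (M := m / p ^ m.factorization p) hp hp2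
    (Nat.coprime_ordCompl hp (NeZero.ne m)) (Nat.ordProj_mul_ordCompl_eq_self m p)

lemma pr_of_not_dvd {p m : ℕ} (h : ¬ p ∣ m) : pr p m = 0 := by
  funext b
  unfold pr par
  rw [Nat.factorization_eq_zero_of_not_dvd h, pow_zero, Nat.cast_one, one_mul]
  change (_ : ZMod 2) = 0
  split_ifs <;> decide

lemma dvd_pow_iff {p m0 e : ℕ} (hp : p.Prime) (hm0 : m0 ≠ 0) (he : m0.factorization p ≤ e)
    (v : ℕ) : m0 ∣ p ^ e * v ↔ m0 ∣ p ^ m0.factorization p * v := by
  constructor
  · intro h
    have h1 := Nat.ordProj_mul_ordCompl_eq_self m0 p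
    have h2 : (p ^ e).Coprime (m0 / p ^ m0.factorization p) :=
      (Nat.coprime_ordCompl hp hm0).pow_left e
    have h3 : m0 / p ^ m0.factorization p ∣ v := by
      apply h2.symm.dvd_of_dvd_mul_left
      exact (Dvd.intro_left _ h1).trans h
    conv_lhs => rw [← h1]
    exact Nat.mul_dvd_mul_left _ h3
  · intro h
    exact h.trans (Nat.mul_dvd_mul_right (pow_dvd_pow p he) v)

lemma pr_iota {p k m0 m : ℕ} [NeZero m] [NeZero m0] (hp : p.Prime) (h : k * m0 = m)
    (b : ZMod m0) : pr p m (iota k b) = pr p m0 b := by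
  have hk0 : 0 < k := Nat.pos_of_ne_zero (by rintro rfl; exact NeZero.ne m (by rw [← h]; simp))
  have h1 : (iota k b : ZMod m) = 0 ↔ b = 0 :=
    ⟨fun h' => iota_eq_zero h h', fun h => by rw [h]; exact iota_zero⟩
  have he : m0.factorization p ≤ m.factorization p :=
    (Nat.factorization_le_iff_dvd (NeZero.ne m0) (NeZero.ne m)).mpr (Dvd.intro_left k h) p
  have h2 : ((p ^ m.factorization p : ℕ) : ZMod m) * iota k b = 0 ↔
      ((p ^ m0.factorization p : ℕ) : ZMod m0) * b = 0 := by
    have e1 : ((p ^ m.factorization p : ℕ) : ZMod m) * iota k b =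
        ((k * (p ^ m.factorization p * b.val) : ℕ) : ZMod m) := by
      unfold iota; push_cast; ring
    have e2 : ((p ^ m0.factorization p : ℕ) : ZMod m0) * b =
        ((p ^ m0.factorization p * b.val : ℕ) : ZMod m0) := by
      push_cast; rw [ZMod.natCast_zmod_val]
    rw [e1, e2, ZMod.natCast_eq_zero_iff, ZMod.natCast_eq_zero_iff]
    have e3 : m ∣ k * (p ^ m.factorization p * b.val) ↔ m0 ∣ p ^ m.factorization p * b.val := by
      have : k * m0 ∣ k * (p ^ m.factorization p * b.val) ↔ m0 ∣ p ^ m.factorization p * b.val :=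
        Nat.mul_dvd_mul_iff_left hk0
      rwa [h] at this
    rw [e3]
    exact dvd_pow_iff hp (NeZero.ne m0) he _
  unfold pr par
  simp only [h1, h2]

lemma pr_zero (p m : ℕ) : pr p m 0 = 0 := by
  unfold pr par
  rw [mul_zero, if_pos rfl]
  decide

lemma exists_root {p : ℕ} (hp : p.Prime) (hp4 : p % 4 = 1) (e : ℕ) :
    ∃ i : ℕ, p ^ e ∣ i ^ 2 + 1 := by
  have : Fact p.Prime := ⟨hp⟩
  have h1 : IsSquare (-1 : ZMod p) := ZMod.exists_sq_eq_neg_one_iff.mpr (by omega)
  obtain ⟨r, hr⟩ := h1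
  have h2 : ((p : ℕ) : ℤ) ∣ (r.val : ℤ) ^ 2 - (-1) := by
    rw [← ZMod.intCast_zmod_eq_zero_iff_dvd]
    push_cast
    rw [ZMod.natCast_zmod_val, sq, ← hr]
    ring
  rcases Nat.eq_zero_or_pos e with he | he
  · exact ⟨0, by rw [he, pow_zero]; exact one_dvd _⟩
  obtain ⟨k, rfl⟩ : ∃ k, e = k + 1 := ⟨e - 1, by omega⟩
  have h3 := dvd_sub_pow_of_dvd_sub h2 k
  have hodd : Odd (p ^ k) := Odd.pow (Nat.odd_iff.mpr (by omega))
  rw [hodd.neg_one_pow] at h3
  refine ⟨r.val ^ (p ^ k), ?_⟩
  have h4 : (((p ^ (k + 1) : ℕ)) : ℤ) ∣ (((r.val ^ (p ^ k)) ^ 2 + 1 : ℕ) : ℤ) := by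
    push_cast
    have h5 : ((r.val : ℤ) ^ p ^ k) ^ 2 + 1 = ((r.val : ℤ) ^ 2) ^ p ^ k - -1 := by
      rw [← pow_mul, ← pow_mul, mul_comm]; ring
    rw [h5]
    exact h3
  exact_mod_cast h4

/-- a unit which is a square root of `-1` modulo the power of `p` and 1 modulo the other part -/
lemma exists_unit {p m : ℕ} [NeZero m] (hp : p.Prime) (hp4 : p % 4 = 1) :
    ∃ v : (ZMod m)ˣ, ∀ a : ZMod m,
      ((p ^ m.factorization p : ℕ) : ZMod m) * a = 0 → (v : ZMod m) ^ 2 * a = -a := by
  set e := m.factorization p with he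
  set M := m / p ^ e with hM
  have hm : p ^ e * M = m := Nat.ordProj_mul_ordCompl_eq_self m p
  have hcop : (p ^ e).Coprime M := (Nat.coprime_ordCompl hp (NeZero.ne m)).pow_left e
  have hM0 : M ≠ 0 := by rintro h; rw [h, mul_zero] at hm; exact NeZero.ne m hm.symm
  obtain ⟨i, hi⟩ := exists_root hp hp4 e
  obtain ⟨w, hw1, hw2⟩ := Nat.chineseRemainder hcop i 1
  have h1 : p ^ e ∣ w ^ 2 + 1 := by
    have h2 : w ^ 2 + 1 ≡ i ^ 2 + 1 [MOD p ^ e] := (hw1.pow 2).add_right 1
    exact (h2.dvd_iff (dvd_refl _)).mpr hi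
  have hwp : w.Coprime (p ^ e) := by
    by_contra hne
    obtain ⟨q, hq, hqw, hqp⟩ := Nat.Prime.not_coprime_iff_dvd.mp hne
    have h3 : q ∣ w ^ 2 + 1 := hqp.trans h1
    have h4 : q ∣ w ^ 2 := dvd_pow hqw two_ne_zero
    have h5 : q ∣ 1 := (Nat.dvd_add_right h4).mp h3
    exact hq.one_lt.ne' (Nat.dvd_one.mp h5)
  have hwM : w.Coprime M := by
    have h3 := hw2.gcd_eq
    rw [Nat.gcd_one_left] at h3
    exact h3
  have hwm : w.Coprime m := by rw [← hm]; exact hwp.mul_right hwM
  refine ⟨ZMod.unitOfCoprime w hwm, fun a ha => ?_⟩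
  rw [ZMod.coe_unitOfCoprime]
  have h3 : M ∣ a.val := by
    have e1 : ((p ^ e : ℕ) : ZMod m) * a = ((p ^ e * a.val : ℕ) : ZMod m) := by
      push_cast; rw [ZMod.natCast_zmod_val]
    rw [e1, ZMod.natCast_eq_zero_iff] at ha
    have h4 : p ^ e * M ∣ p ^ e * a.val := by rw [hm]; exact ha
    exact Nat.dvd_of_mul_dvd_mul_left (pow_pos hp.pos e) h4
  have h5 : (((w ^ 2 + 1) * a.val : ℕ) : ZMod m) = 0 := by
    rw [ZMod.natCast_eq_zero_iff]
    have h6 := Nat.mul_dvd_mul h1 h3
    rwa [hm] at h6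
  push_cast at h5
  rw [ZMod.natCast_zmod_val] at h5
  linear_combination h5

/-- The number of the entries of `p`-power order is even for multisets invariant under the squares. -/
lemma pr_of_sq {p m : ℕ} [NeZero m] (hp : p.Prime) (hp4 : p % 4 = 1) {b : Multiset (ZMod m)}
    (hb : ∀ v : (ZMod m)ˣ, b.map (fun x => (v : ZMod m) ^ 2 * x) = b) :
    (b.map (pr p m)).sum = 0 := by
  classical
  obtain ⟨v, hv⟩ := exists_unit (m := m) hp hp4
  set P : ZMod m → Prop := fun a => ((p ^ m.factorization p : ℕ) : ZMod m) * a = 0 ∧ a ≠ 0 with hP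
  have hpr : ∀ a : ZMod m, pr p m a = if P a then 1 else 0 := by
    intro a
    unfold pr par
    by_cases ha : a = 0
    · have h1 : ¬ P a := fun h => h.2 ha
      have h2 : ((p ^ m.factorization p : ℕ) : ZMod m) * a = 0 := by rw [ha, mul_zero]
      rw [if_pos h2, if_pos ha, if_neg h1]; decide
    · rw [if_neg ha, add_zero]
      by_cases h1 : ((p ^ m.factorization p : ℕ) : ZMod m) * a = 0
      · rw [if_pos h1, if_pos ⟨h1, ha⟩]
      · rw [if_neg h1, if_neg (fun h => h1 h.1)]
  have hsum : (b.map (pr p m)).sum = ((b.filter P).card : ZMod 2) := by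
    clear hb
    induction b using Multiset.induction_on with
    | empty => simp
    | cons a s ih =>
      rw [Multiset.map_cons, Multiset.sum_cons, ih, hpr, Multiset.filter_cons, Multiset.card_add]
      split_ifs with h
      · rw [Multiset.card_singleton]; push_cast; ring
      · rw [Multiset.card_zero]; push_cast; ring
  rw [hsum]
  -- invariance under negation
  have hinv : (b.filter P).map Neg.neg = b.filter P := by
    have h1 : (b.filter P).map (fun x => (v : ZMod m) ^ 2 * x) = (b.filter P).map Neg.neg :=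
      Multiset.map_congr rfl fun x hx => hv x (Multiset.mem_filter.mp hx).2.1
    rw [← h1]
    have hv2 : ∀ x : ZMod m, (v : ZMod m) ^ 2 * x = 0 ↔ x = 0 := by
      intro x
      have : IsUnit ((v : ZMod m) ^ 2) := (Units.isUnit v).pow 2
      exact this.mul_right_eq_zero
    have h2 : ∀ x : ZMod m, P ((v : ZMod m) ^ 2 * x) ↔ P x := by
      intro x
      have h3 : ((p ^ m.factorization p : ℕ) : ZMod m) * ((v : ZMod m) ^ 2 * x) =
          (v : ZMod m) ^ 2 * (((p ^ m.factorization p : ℕ) : ZMod m) * x) := by ring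
      simp only [hP]
      rw [h3, hv2, Ne, hv2]
    calc (b.filter P).map (fun x => (v : ZMod m) ^ 2 * x)
        = (b.filter (P ∘ fun x => (v : ZMod m) ^ 2 * x)).map (fun x => (v : ZMod m) ^ 2 * x) := by
          congr 1
          apply Multiset.filter_congr
          intro x _
          exact (h2 x).symm
      _ = (b.map (fun x => (v : ZMod m) ^ 2 * x)).filter P := (Multiset.filter_map _ _ _).symm
      _ = b.filter P := by rw [hb v]
  have hne : ∀ a ∈ b.filter P, -a ≠ a := by
    intro a ha h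
    obtain ⟨h1, h2⟩ := (Multiset.mem_filter.mp ha).2
    apply h2
    have hodd : Odd (p ^ m.factorization p) := Odd.pow (Nat.odd_iff.mpr (by omega))
    obtain ⟨k, hk⟩ := hodd
    have h3 : a + a = 0 := by nth_rewrite 1 [← h]; exact neg_add_cancel a
    rw [hk] at h1
    push_cast at h1
    linear_combination h1 - (k : ZMod m) * h3
  -- the count
  have hcount : ∀ a, (b.filter P).count (-a) = (b.filter P).count a := by
    intro a
    conv_lhs => rw [← hinv]
    exact Multiset.count_map_eq_count' _ _ neg_injective a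
  have hcard := Multiset.sum_count_eq_card (s := univ) (m := b.filter P) (fun a _ => mem_univ a)
  rw [← hcard]
  push_cast
  refine Finset.sum_involution (fun a _ => -a) ?_ ?_ (fun _ _ => mem_univ _) (fun a _ => neg_neg a)
  · intro a _
    rw [hcount, ← two_mul]
    have : (2 : ZMod 2) = 0 := by decide
    rw [this, zero_mul]
  · intro a _ h
    apply hne
    by_contra hmem
    apply h
    rw [Multiset.count_eq_zero_of_notMem hmem, Nat.cast_zero]

lemma pr_twelve {p m : ℕ} [NeZero m] (hp : p.Prime) (hp4 : p % 4 = 1) {a : ZMod m}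
    (ha : 12 * a = 0) : pr p m a = 0 := by
  unfold pr par
  by_cases h1 : ((p ^ m.factorization p : ℕ) : ZMod m) * a = 0
  · have hcop : IsCoprime ((12 : ℕ) : ℤ) ((p ^ m.factorization p : ℕ) : ℤ) := by
      rw [Nat.isCoprime_iff_coprime]
      apply Nat.Coprime.pow_right
      have hp5 : 5 ≤ p := by
        have := hp.two_le
        by_contra h
        have h2 : p = 2 ∨ p = 3 ∨ p = 4 := by omega
        rcases h2 with h2 | h2 | h2 <;> omega
      rw [Nat.coprime_comm, hp.coprime_iff_not_dvd]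
      intro h
      have h2 : p ∣ 2 * 2 * 3 := h
      rcases (Nat.Prime.dvd_mul hp).mp h2 with h3 | h3
      · rcases (Nat.Prime.dvd_mul hp).mp h3 with h4 | h4 <;>
          (have := Nat.le_of_dvd (by norm_num) h4; omega)
      · have := Nat.le_of_dvd (by norm_num) h3; omega
    obtain ⟨u, w, huw⟩ := hcop
    have ha0 : a = 0 := by
      have h2 : ((u * ((12 : ℕ) : ℤ) + w * ((p ^ m.factorization p : ℕ) : ℤ) : ℤ) : ZMod m) = 1 := by
        rw [huw]; simp
      push_cast at h2 h1
      linear_combination (-a) * h2 + (u : ZMod m) * ha + (w : ZMod m) * h1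
    rw [ha0, mul_zero, if_pos rfl]
    decide
  · have ha0 : a ≠ 0 := by rintro rfl; exact h1 (mul_zero _)
    rw [if_neg h1, if_neg ha0]
    decide

/-- The parity of a modular character at a prime congruent to 1 modulo 4 is even. -/
theorem pr_modular {p m : ℕ} [NeZero m] (hp : p.Prime) (hp4 : p % 4 = 1) {s : Multiset (ZMod m)}
    (hs : ModularCharacter m s) : (s.map (pr p m)).sum = 0 := by
  obtain ⟨hH, L, r, hL, hr, rfl⟩ := hs
  clear hH
  rw [Multiset.map_add, Multiset.sum_add]
  have h1 : (r.map (pr p m)).sum = 0 := by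
    apply Multiset.sum_eq_zero
    intro x hx
    obtain ⟨a, ha, rfl⟩ := Multiset.mem_map.mp hx
    exact pr_twelve hp hp4 (hr a ha)
  rw [h1, add_zero]
  clear hr h1
  induction L with
  | nil => simp
  | cons b L ih =>
    rw [List.sum_cons, Multiset.map_add, Multiset.sum_add,
      pr_of_sq hp hp4 (fun v => spectrum_sq (hL b (List.mem_cons_self ..)) v), zero_add]
    exact ih fun b' hb' => hL b' (List.mem_cons_of_mem _ hb')

end Pool.Agent.N198.TP
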