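import Pool.Agent.N198.TP.Three
import Pool.Agent.N198.TP.Par

/-!
Hodge characters with even parities are generated by modular characters.
-/

set_option linter.unusedSectionVars false

namespace Pool.Agent.N198.TP

open Finset Pool.Agent.H916R2 Pool.Agent.N992 Pool.Agent.N993 Pool.Agent.N998 Pool.Agent.H916K

lemma exists_hom {B : Type} [AddCommGroup B] {ε : B} (h : ε + ε = 0) :
    ∃ τ : ZMod 2 →+ B, τ 1 = ε := by
  refine ⟨ZMod.lift 2 ⟨zmultiplesHom B ε, ?_⟩, ?_⟩
  · change ((2 : ℕ) : ℤ) • ε = 0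
    rw [natCast_zsmul, two_nsmul, h]
  · have h1 := ZMod.lift_coe 2 ⟨zmultiplesHom B ε, (by
      change ((2 : ℕ) : ℤ) • ε = 0
      rw [natCast_zsmul, two_nsmul, h] : (zmultiplesHom B ε) ((2 : ℕ) : ℤ) = 0)⟩ 1
    rw [Int.cast_one] at h1
    rw [h1]
    change (1 : ℤ) • ε = ε
    rw [one_smul]

lemma rel_sub {m : ℕ} [NeZero m] {x y : ZMod m → ℤ} (hx : H916R2.Rel x) (hy : H916R2.Rel y) :
    H916R2.Rel (x - y) := by
  intro t
  simp only [Pi.sub_apply, sub_mul, sum_sub_distrib]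
  rw [hx t, hy t, sub_zero]

lemma rel_add {m : ℕ} [NeZero m] {x y : ZMod m → ℤ} (hx : H916R2.Rel x) (hy : H916R2.Rel y) :
    H916R2.Rel (x + y) := by
  intro t
  simp only [Pi.add_apply, add_mul, sum_add_distrib]
  rw [hx t, hy t, add_zero]

lemma zmod_two (z : ZMod 2) : z = 0 ∨ z = 1 := by revert z; decide

/-- The relations of a pair of nonresidues are detected by the parity. -/
lemma exists_const {p q : ℕ} (hp : p.Prime) (hq : q.Prime) (hp2 : p ≠ 2) (hq2 : q ≠ 2)
    (hpq : p ≠ q) (hleg : ¬ IsSquare ((q : ℕ) : ZMod p)) {n : ℕ} [NeZero n] (hn : p * q = n)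
    {B : Type} [AddCommGroup B] {c : ZMod n → B} (hc : OddDist c) :
    ∃ τ : ZMod 2 →+ B, ∀ y : ZMod n → ℤ, H916R2.Rel y →
      ∑ b, y b • c b = τ (∑ b, y b • pr p n b) := by
  subst hn
  have : Fact p.Prime := ⟨hp⟩
  have : Fact q.Prime := ⟨hq⟩
  have hleg' : legendreSym p q = -1 := by
    have hq0 : ((q : ℤ) : ZMod p) ≠ 0 := by
      push_cast; exact pq_ne hpq
    rcases legendreSym.eq_one_or_neg_one p hq0 with h | h
    · exfalso
      apply hleg
      have := (legendreSym.eq_one_iff p hq0).mp h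
      simpa using this
    · exact h
  have hfac : (p * q).factorization p = 1 := by
    rw [Nat.factorization_mul hp.ne_zero hq.ne_zero, Finsupp.add_apply, hp.factorization_self,
      Nat.factorization_eq_zero_of_not_dvd (fun h => hpq ((Nat.prime_dvd_prime_iff_eq hp hq).mp h))]
  have hpr : pr p (p * q) = par (p * q) p := by
    unfold pr; rw [hfac, pow_one]
  have key : ∀ y : ZMod (p * q) → ℤ, H916R2.Rel y → ∑ b, y b • pr p (p * q) b = 0 →
      ∑ b, y b • c b = 0 := by
    intro y hy h0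
    rw [hpr] at h0
    exact level_two hp2 hq2 hpq hleg' hy h0 hc
  by_cases h : ∃ y1 : ZMod (p * q) → ℤ, H916R2.Rel y1 ∧ ∑ b, y1 b • pr p (p * q) b = 1
  · obtain ⟨y1, hy1, h1⟩ := h
    have hε : (∑ b, y1 b • c b) + (∑ b, y1 b • c b) = 0 := by
      rw [← key (y1 + y1) (rel_add hy1 hy1) (by
        simp only [Pi.add_apply, add_smul, sum_add_distrib]
        rw [h1]; decide)]
      simp only [Pi.add_apply, add_smul, sum_add_distrib]
    obtain ⟨τ, hτ⟩ := exists_hom hε
    refine ⟨τ, fun y hy => ?_⟩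
    rcases zmod_two (∑ b, y b • pr p (p * q) b) with h0 | h0
    · rw [h0, map_zero]; exact key y hy h0
    · rw [h0, hτ]
      have h2 := key (y - y1) (rel_sub hy hy1) (by
        simp only [Pi.sub_apply, sub_smul, sum_sub_distrib]
        rw [h0, h1, sub_self])
      simp only [Pi.sub_apply, sub_smul, sum_sub_distrib] at h2
      exact sub_eq_zero.mp h2
  · refine ⟨0, fun y hy => ?_⟩
    rw [AddMonoidHom.zero_apply]
    apply key y hy
    rcases zmod_two (∑ b, y b • pr p (p * q) b) with h0 | h0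
    · exact h0
    · exact absurd ⟨y, hy, h0⟩ h

lemma oddDist_sub {m : ℕ} {Q : Type} [AddCommGroup Q] {c d : ZMod m → Q} (hc : OddDist c)
    (hd : OddDist d) : OddDist (fun a => c a - d a) where
  neg := fun a => by rw [hc.neg, hd.neg]; abel
  half := fun a ha => by rw [hc.half a ha, hd.half a ha, sub_zero]
  dist := fun p d hp hpd a => by
    rw [sum_sub_distrib, hc.dist p d hp hpd a, OddDist.dist ‹_› p d hp hpd a]

lemma oddDist_sum {m : ℕ} {Q : Type} [AddCommGroup Q] {κ : Type} (s : Finset κ)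
    {c : κ → ZMod m → Q} (hc : ∀ i ∈ s, OddDist (c i)) : OddDist (fun a => ∑ i ∈ s, c i a) where
  neg := fun a => by
    rw [← sum_neg_distrib]
    exact sum_congr rfl fun i hi => (hc i hi).neg a
  half := fun a ha => sum_eq_zero fun i hi => (hc i hi).half a ha
  dist := fun p d hp hpd a => by
    rw [sum_comm]
    exact sum_congr rfl fun i hi => (hc i hi).dist p d hp hpd a

lemma sum_map_sum {m : ℕ} {Q : Type} [AddCommGroup Q] (P : Finset ℕ) (τ : ℕ → ZMod 2 →+ Q)
    (f : ℕ → ZMod m → ZMod 2) (s : Multiset (ZMod m)) :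
    (s.map fun b => ∑ p ∈ P, τ p (f p b)).sum = ∑ p ∈ P, τ p ((s.map (f p)).sum) := by
  induction s using Multiset.induction_on with
  | empty => simp
  | cons a s ih =>
    simp only [Multiset.map_cons, Multiset.sum_cons, map_add, sum_add_distrib]
    rw [ih]

lemma sum_smul_sum {m : ℕ} [NeZero m] {Q : Type} [AddCommGroup Q] (P : Finset ℕ)
    (τ : ℕ → ZMod 2 →+ Q) (f : ℕ → ZMod m → ZMod 2) (x : ZMod m → ℤ) :
    ∑ b, x b • ∑ p ∈ P, τ p (f p b) = ∑ p ∈ P, τ p (∑ b, x b • f p b) := by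
  simp only [smul_sum, map_sum, map_zsmul]
  rw [sum_comm]

/-- Relations with even parities are killed by the modular characters. -/
theorem main_level {P : Finset ℕ} {A : ℕ → ℕ} (hA : Choice P A)
    (hns : ∀ p ∈ P, ¬ IsSquare ((A p : ℕ) : ZMod p)) {S : Finset ℕ} (hcard : S.card ≤ 3)
    (hadm : Adm P S) : ∃ l : ℕ, l ≠ 0 ∧ ∀ (k N mS : ℕ) [NeZero N] [NeZero mS],
      ∏ x ∈ S, x = mS → k * (l * mS) = N → ∀ (Q : Type) [AddCommGroup Q] (c : ZMod N → Q),
      OddDist c → (∀ s, ModularCharacter N s → (s.map c).sum = 0) → ∀ x : ZMod mS → ℤ,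
      H916R2.Rel x → (∀ p ∈ P, ∑ b, x b • pr p mS b = 0) → ∑ b, x b • c (iota (k * l) b) = 0 := by
  classical
  obtain ⟨l, hl, hgood⟩ := good_three hA hcard hadm
  refine ⟨l, hl, ?_⟩
  intro k N mS _ _ hmS hk Q _ c hc hmod x hx hpar
  -- the constants
  have hτ : ∀ p, ∃ τ : ZMod 2 →+ Q, p ∈ P → ∀ (m0 k' : ℕ) [NeZero m0], p * A p = m0 →
      k' * m0 = N → ∀ y : ZMod m0 → ℤ, H916R2.Rel y →
      ∑ b, y b • c (iota k' b) = τ (∑ b, y b • pr p m0 b) := by
    intro p
    by_cases hp : p ∈ P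
    · by_cases hdvd : p * A p ∣ N
      · obtain ⟨hpp, hp4, hAp, hA4, _⟩ := hA p hp
        obtain ⟨k1, hk1⟩ := hdvd
        have hn0 : NeZero (p * A p) := ⟨Nat.mul_ne_zero hpp.ne_zero hAp.ne_zero⟩
        have hk1' : k1 * (p * A p) = N := by rw [hk1]; ring
        obtain ⟨τ, hτ⟩ := exists_const hpp hAp (by omega) (by omega) (hA.ne hp) (hns p hp)
          (n := p * A p) rfl (hc.comp_iota hk1')
        refine ⟨τ, fun _ m0 k' _ hm0 hk' y hy => ?_⟩
        subst hm0
        have hkk : k' = k1 := Nat.eq_of_mul_eq_mul_right (NeZero.pos _) (hk'.trans hk1'.symm)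
        subst hkk
        exact hτ y hy
      · refine ⟨0, fun _ m0 k' _ hm0 hk' y hy => ?_⟩
        exact absurd (Dvd.intro_left k' (by rw [hm0]; exact hk')) hdvd
    · exact ⟨0, fun h => absurd h hp⟩
  choose τ hτ using hτ
  have hpp2 : ∀ p ∈ P, p.Prime ∧ p ≠ 2 ∧ p % 4 = 1 := fun p hp =>
    ⟨(hA p hp).1, by have := (hA p hp).2.1; omega, (hA p hp).2.1⟩
  set c' : ZMod N → Q := fun b => c b - ∑ p ∈ P, τ p (pr p N b) with hc'
  have hc'D : OddDist c' := oddDist_sub hc (oddDist_sum P fun p hp =>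
    oddDist_map (pr_odd (hpp2 p hp).1 (hpp2 p hp).2.1) (τ p))
  have hexp : ∀ (m0 k' : ℕ) [NeZero m0], k' * m0 = N → ∀ y : ZMod m0 → ℤ,
      ∑ b, y b • c' (iota k' b) = ∑ b, y b • c (iota k' b) -
        ∑ p ∈ P, τ p (∑ b, y b • pr p m0 b) := by
    intro m0 k' _ hk' y
    rw [← sum_smul_sum, ← sum_sub_distrib]
    refine sum_congr rfl fun b _ => ?_
    rw [hc', smul_sub]
    congr 2
    refine sum_congr rfl fun p hp => ?_
    rw [pr_iota (hpp2 p hp).1 hk']
  have hkills : Kills P A c' := by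
    refine ⟨fun s hs => ?_, fun p hp m0 k' _ hm0 hk' y hy => ?_⟩
    · rw [hc', Multiset.sum_map_sub, hmod s hs, sum_map_sum, zero_sub, neg_eq_zero]
      refine sum_eq_zero fun p hp => ?_
      rw [pr_modular (hpp2 p hp).1 (hpp2 p hp).2.2 hs, map_zero]
    · rw [hexp m0 k' hk' y, hτ p hp m0 k' hm0 hk' y hy, sum_eq_single p, sub_self]
      · intro p' hp' hne
        have hnd : ¬ p' ∣ m0 := by
          rw [← hm0]
          intro h
          obtain ⟨h1, h2, h3⟩ := hpp2 p' hp'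
          rcases (Nat.Prime.dvd_mul h1).mp h with h4 | h4
          · exact hne ((Nat.prime_dvd_prime_iff_eq h1 (hpp2 p hp).1).mp h4)
          · have h5 := (Nat.prime_dvd_prime_iff_eq h1 (hA p hp).2.2.1).mp h4
            have h6 := (hA p hp).2.2.2.1
            omega
        rw [pr_of_not_dvd hnd]
        simp
      · intro h; exact absurd hp h
  have h1 := hgood k N mS hmS hk Q c' hc'D hkills x hx
  rw [hexp mS (k * l) (by rw [mul_assoc]; exact hk) x] at h1
  have h2 : ∑ p ∈ P, τ p (∑ b, x b • pr p mS b) = 0 :=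
    sum_eq_zero fun p hp => by rw [hpar p hp, map_zero]
  rw [h2, sub_zero] at h1
  exact h1

end Pool.Agent.N198.TP
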