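import Pool.Agent.N198.TP.Good

/-!
Transfer between pairs with nonresidues.
-/

set_option linter.unusedSectionVars false

namespace Pool.Agent.N198.TP

open Finset Pool.Agent.H916R2 Pool.Agent.N992 Pool.Agent.N993 Pool.Agent.N998

variable {P : Finset ℕ} {A : ℕ → ℕ}

/-- Transfer between pairs with nonresidues. -/
theorem good_pair_transfer {p a b : ℕ} (hp : p.Prime) (hp4 : p % 4 = 1) (ha : Three a)
    (hb : Three b) (hna : NR p a) (hnb : NR p b) (h : Good P A {p, b}) : Good P A {p, a} := by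
  classical
  have hpa : p ≠ a := by rintro rfl; exact ha.mod hp4
  have hpb : p ≠ b := by rintro rfl; exact hb.mod hp4
  set U0 : Finset ℕ := {a, b} with hU0d
  have hU0 : ∀ x ∈ U0, (x.Prime ∧ x % 2 = 1) ∨ x = 4 := by
    intro x hx
    rw [hU0d, mem_insert, mem_singleton] at hx
    rcases hx with rfl | rfl
    · exact ha.adm
    · exact hb.adm
  have hpU0 : p ∉ U0 := by
    rw [hU0d, mem_insert, mem_singleton, not_or]
    exact ⟨hpa, hpb⟩
  obtain ⟨q, hq, hq8, hqU0, hneg, hnr⟩ := exists_aux hU0 hp hp4 hpU0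
  set U : Finset ℕ := insert p (insert q U0) with hUd
  have hU : ∀ x ∈ U, (x.Prime ∧ x % 2 = 1) ∨ x = 4 := by
    intro x hx
    rw [hUd, mem_insert, mem_insert] at hx
    rcases hx with rfl | rfl | hx
    · left; exact ⟨hp, by omega⟩
    · left; exact ⟨hq, by omega⟩
    · exact hU0 x hx
  have hpU : p ∈ U := mem_insert_self _ _
  have hqU : q ∈ U := mem_insert_of_mem (mem_insert_self _ _)
  have hU0U : U0 ⊆ U := (subset_insert _ _).trans (subset_insert _ _)
  have ha0 : a ∈ U0 := mem_insert_self _ _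
  have hb0 : b ∈ U0 := mem_insert_of_mem (mem_singleton_self _)
  refine good_core (U := U) hU (S := {p, a}) ?_ {{p, b}} ?_ ?_
  · intro x hx
    rw [mem_insert, mem_singleton] at hx
    rcases hx with rfl | rfl
    · exact hpU
    · exact hU0U ha0
  · intro T hT
    rw [mem_singleton] at hT
    subst hT
    refine ⟨?_, h⟩
    intro x hx
    rw [mem_insert, mem_singleton] at hx
    rcases hx with rfl | rfl
    · exact hpU
    · exact hU0U hb0
  · intro _ ν hν hty hsm hT
    have hfree : ∀ i, (cyc (nn U)).c i ≠ 1 := fun i => neg_one_ne_one (hU i i.2)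
    have haux := auxC_of hU hpU hqU hU0U hp hp4 hq hq8 hpU0 hqU0 hneg hnr
    have hun : (univ : Finset (Ix U)) = insert ⟨p, hpU⟩ (insert ⟨q, hqU⟩ (U0.subtype (· ∈ U))) := by
      rw [← subtype_insert' hqU, ← subtype_insert' hpU, ← hUd, subtype_self]
    have h1 := hT _ (mem_singleton_self _)
    rw [subtype_insert' hpU, subtype_singleton' (hU0U hb0)] at h1
    rw [subtype_insert' hpU, subtype_singleton' (hU0U ha0)]
    rw [hun] at hν hty hsm
    refine (Dat.pair_iff hfree haux hν hty (fun z hz => Dat.small_even (by norm_num) hsm hz)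
      (a := ⟨a, hU0U ha0⟩) (b := ⟨b, hU0U hb0⟩) ?_ ?_ ?_ ?_ ?_ ?_ ?_ ?_).mpr h1
    · rw [mem_subtype]; exact ha0
    · exact qq_c_eq_neg_one hU ha
    · exact card_kernel_odd ha
    · exact qq_nr hU (fun h => hpa (congrArg Subtype.val h).symm) hna
    · rw [mem_subtype]; exact hb0
    · exact qq_c_eq_neg_one hU hb
    · exact card_kernel_odd hb
    · exact qq_nr hU (fun h => hpb (congrArg Subtype.val h).symm) hnb

/-- Two primes congruent to 1 modulo 4 which are nonresidues modulo each other. -/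
theorem good_two_primes {p r a b : ℕ} (hp : p.Prime) (hp4 : p % 4 = 1) (hr : r.Prime)
    (hr4 : r % 4 = 1) (hpr : p ≠ r) (hrp : ¬ IsSquare ((r : ℕ) : ZMod p)) (ha : Three a)
    (hna : NR p a) (hga : Good P A {p, a}) (hb : Three b) (hnb : NR r b) (hgb : Good P A {r, b}) :
    Good P A {p, r} := by
  classical
  have hpad : (p.Prime ∧ p % 2 = 1) ∨ p = 4 := Or.inl ⟨hp, by omega⟩
  have hrad : (r.Prime ∧ r % 2 = 1) ∨ r = 4 := Or.inl ⟨hr, by omega⟩
  have hpa : p ≠ a := by rintro rfl; exact ha.mod hp4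
  have hra : r ≠ a := by rintro rfl; exact ha.mod hr4
  -- the second auxiliary prime
  obtain ⟨s, hs, hs8, hs0, hsneg, hsr⟩ := exists_aux (U0 := {p, a}) (p := r) (by
    intro x hx
    rw [mem_insert, mem_singleton] at hx
    rcases hx with rfl | rfl
    · exact hpad
    · exact ha.adm) hr hr4 (by
    rw [mem_insert, mem_singleton, not_or]
    exact ⟨hpr.symm, hra⟩)
  have hs4 : s % 4 = 3 := by omega
  have hsT : Three s := Or.inl ⟨hs, hs4⟩
  have hs4' : s ≠ 4 := by rintro rfl; omega
  have hr4' : r ≠ 4 := by rintro rfl; omega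
  have hsp : s ≠ p := fun e => hs0 (e ▸ mem_insert_self _ _)
  have hsa : s ≠ a := fun e => hs0 (e ▸ mem_insert_of_mem (mem_singleton_self _))
  have hsr' : s ≠ r := by rintro rfl; omega
  have hgs : Good P A {r, s} := by
    refine good_pair_transfer hr hr4 hsT hb ?_ hnb hgb
    unfold NR
    rw [if_neg hs4']
    exact hsr
  have hsqp : IsSquare ((s : ℕ) : ZMod p) := by
    rw [hsneg p (mem_insert_self _ _)]
    exact isSquare_neg_one hp hp4
  set U0 : Finset ℕ := {a, r, s} with hU0d
  have hU0 : ∀ x ∈ U0, (x.Prime ∧ x % 2 = 1) ∨ x = 4 := by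
    intro x hx
    rw [hU0d, mem_insert, mem_insert, mem_singleton] at hx
    rcases hx with rfl | rfl | rfl
    · exact ha.adm
    · exact hrad
    · exact hsT.adm
  have hpU0 : p ∉ U0 := by
    rw [hU0d, mem_insert, mem_insert, mem_singleton, not_or, not_or]
    exact ⟨hpa, hpr, hsp.symm⟩
  obtain ⟨q, hq, hq8, hqU0, hneg, hnr⟩ := exists_aux hU0 hp hp4 hpU0
  set U : Finset ℕ := insert p (insert q U0) with hUd
  have hU : ∀ x ∈ U, (x.Prime ∧ x % 2 = 1) ∨ x = 4 := by
    intro x hx
    rw [hUd, mem_insert, mem_insert] at hx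
    rcases hx with rfl | rfl | hx
    · exact hpad
    · left; exact ⟨hq, by omega⟩
    · exact hU0 x hx
  have hpU : p ∈ U := mem_insert_self _ _
  have hqU : q ∈ U := mem_insert_of_mem (mem_insert_self _ _)
  have hU0U : U0 ⊆ U := (subset_insert _ _).trans (subset_insert _ _)
  have ha0 : a ∈ U0 := mem_insert_self _ _
  have hr0 : r ∈ U0 := mem_insert_of_mem (mem_insert_self _ _)
  have hs0 : s ∈ U0 := mem_insert_of_mem (mem_insert_of_mem (mem_singleton_self _))
  have hne : ∀ {x y : ℕ} {hx : x ∈ U} {hy : y ∈ U}, x ≠ y → (⟨x, hx⟩ : Ix U) ≠ ⟨y, hy⟩ :=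
    fun h e => h (congrArg Subtype.val e)
  refine good_core (U := U) hU (S := {p, r}) ?_ {{p, a}, {r, s}} ?_ ?_
  · intro x hx
    rw [mem_insert, mem_singleton] at hx
    rcases hx with rfl | rfl
    · exact hpU
    · exact hU0U hr0
  · intro T hT
    rw [mem_insert, mem_singleton] at hT
    rcases hT with rfl | rfl
    · refine ⟨?_, hga⟩
      intro x hx
      rw [mem_insert, mem_singleton] at hx
      rcases hx with rfl | rfl
      · exact hpU
      · exact hU0U ha0
    · refine ⟨?_, hgs⟩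
      intro x hx
      rw [mem_insert, mem_singleton] at hx
      rcases hx with rfl | rfl
      · exact hU0U hr0
      · exact hU0U hs0
  · intro _ ν hν hty hsm hT
    have hfree : ∀ i, (cyc (nn U)).c i ≠ 1 := fun i => neg_one_ne_one (hU i i.2)
    have haux := auxC_of hU hpU hqU hU0U hp hp4 hq hq8 hpU0 hqU0 hneg hnr
    have hun : (univ : Finset (Ix U)) = insert ⟨p, hpU⟩ (insert ⟨q, hqU⟩ (U0.subtype (· ∈ U))) := by
      rw [← subtype_insert' hqU, ← subtype_insert' hpU, ← hUd, subtype_self]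
    have h1 := hT _ (mem_insert_self _ _)
    have h2 := hT _ (mem_insert_of_mem (mem_singleton_self _))
    rw [subtype_insert' hpU, subtype_singleton' (hU0U ha0)] at h1
    rw [subtype_insert' (hU0U hr0), subtype_singleton' (hU0U hs0)] at h2
    rw [subtype_insert' hpU, subtype_singleton' (hU0U hr0)]
    rw [hun] at hν hty hsm
    refine Dat.two_primes hfree haux hν hty (fun z hz => Dat.small_even (by norm_num) hsm hz)
      (a := ⟨a, hU0U ha0⟩) ?_ ?_ ?_ ?_ h1 (r := ⟨r, hU0U hr0⟩) (s := ⟨s, hU0U hs0⟩) ?_ ?_ ?_ ?_ ?_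
      ?_ ?_ ?_ ?_ ?_ h2
    · rw [mem_subtype]; exact ha0
    · exact qq_c_eq_neg_one hU ha
    · exact card_kernel_odd ha
    · exact qq_nr hU (hne hpa.symm) hna
    · exact hne hsr'.symm
    · rw [mem_subtype]; exact hr0
    · rw [mem_subtype]; exact hs0
    · exact qq_c_eq_one hU hr4
    · exact qq_c_eq_neg_one hU hsT
    · exact qq_eq_neg_one hU (hne hpr.symm) hrp
    · exact beta_eq_one hU hr4'
    · exact qq_eq_one hU (hne hsp) hsqp
    · exact beta_eq_one hU hs4'
    · exact qq_eq_neg_one hU (hne hsr') hsr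


end Pool.Agent.N198.TP
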