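import Pool.Agent.N198.TP.Full
import Pool.Agent.H916K.Stick

/-!
Rational classes have even parities.
-/

set_option linter.unusedSectionVars false

namespace Pool.Agent.N198.TP

open Finset Pool.Agent.H916R2 Pool.Agent.N992 Pool.Agent.N993 Pool.Agent.H916K

lemma mutual_of_small {m p : ℕ} [NeZero m] (hp : p.Prime) (hp4 : p % 4 = 1) (hpm : p ∣ m)
    (hM : m / p ^ m.factorization p < 3) : MutualSquares m := by
  set e := m.factorization p with he
  set M := m / p ^ e with hMdef
  have hm : p ^ e * M = m := Nat.ordProj_mul_ordCompl_eq_self m p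
  have hp2 : p ≠ 2 := by omega
  have key : ∀ q : ℕ, q.Prime → q ∣ m → q ≠ 2 → q = p := by
    intro q hq hqm hq2
    rw [← hm] at hqm
    rcases (Nat.Prime.dvd_mul hq).mp hqm with h | h
    · exact (Nat.prime_dvd_prime_iff_eq hq hp).mp (hq.dvd_of_dvd_pow h)
    · exfalso
      have hM0 : M ≠ 0 := by rintro h'; rw [h', mul_zero] at hm; exact NeZero.ne m hm.symm
      have h1 := Nat.le_of_dvd (Nat.pos_of_ne_zero hM0) h
      have h2 := hq.two_le
      omega
  intro p' hp' hpm' hp4'
  refine ⟨fun q hq hqm hq2 hqp => ?_, fun h4 => ?_⟩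
  · exfalso
    apply hqp
    have h2 : p' ≠ 2 := by rintro rfl; omega
    rw [key q hq hqm hq2, key p' hp' hpm' h2]
  · exfalso
    have hM0 : M ≠ 0 := by rintro h'; rw [h', mul_zero] at hm; exact NeZero.ne m hm.symm
    have hodd : Odd (p ^ e) := Odd.pow (Nat.odd_iff.mpr (by omega))
    have h1 : M = 1 ∨ M = 2 := by
      have h2 := Nat.pos_of_ne_zero hM0
      have h3 : M < 3 := hM
      generalize M = M' at h2 h3 ⊢
      omega
    have hcop : Nat.Coprime 4 (p ^ e) := by
      have : Nat.Coprime (2 ^ 2) (p ^ e) := by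
        apply Nat.Coprime.pow_left
        rw [Nat.coprime_two_left]; exact hodd
      exact this
    rw [← hm] at h4
    have h2 : 4 ∣ M := hcop.dvd_of_dvd_mul_left h4
    rcases h1 with h1 | h1 <;> rw [h1] at h2 <;> omega

/-- The parities of a rational class are even. -/
theorem even_of_rational_class {m : ℕ} [NeZero m] {s : Multiset (ZMod m × ℤ)}
    (hH : IsHodge m (s.map Prod.fst)) (hne : s ≠ 0) (hc : ∀ z ∈ s, z.2 ≠ 0)
    (hR : RationalClass m s) {p : ℕ} (hp : p.Prime) (hpm : p ∣ m) (hp4 : p % 4 = 1) :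
    ((s.map Prod.fst).map (pr p m)).sum = 0 := by
  set e := m.factorization p with he
  have hm : p ^ e * (m / p ^ e) = m := Nat.ordProj_mul_ordCompl_eq_self m p
  by_cases hM : 3 ≤ m / p ^ e
  · have h1 := even_of_rational (m := m) (M := m / p ^ e) (q := p) (b := e)
      (by rw [mul_comm]; exact hm.symm) hM hp (by omega)
      (Nat.coprime_ordCompl hp (NeZero.ne m)).symm hc hR
    rw [countP_conv (pow_pos hp.pos e) hm] at h1
    unfold pr
    rw [← he, sum_par hH.1]
    exact (ZMod.natCast_eq_zero_iff_even).mpr h1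
  · have hms := mutual_of_small hp hp4 hpm (by rw [← he]; omega)
    obtain ⟨l, hl, _, hgen⟩ := Pool.Agent.N993.main m hms
    have h1 := even_of_generated hp hp4 (hgen _ hH (fun h => hne (Multiset.map_eq_zero.mp h)))
    rw [Multiset.map_map] at h1
    rw [← h1]
    congr 1
    refine Multiset.map_congr rfl fun a _ => ?_
    exact (pr_iota hp rfl a).symm

/-- The main theorem. -/
theorem main_rational (m : ℕ) [NeZero m] (hm : MutualSquares m ∨
      (m.primeFactors.erase 2).card + (if 4 ∣ m then 1 else 0) ≤ 3) :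
    ∃ l : ℕ, ∃ _ : NeZero (l * m), ∀ s : Multiset (ZMod m × ℤ), s ≠ 0 →
      Even (Multiset.card s) → (∀ z ∈ s, z.1 ≠ 0 ∧ z.2 ≠ 0) → (s.map Prod.fst).sum = 0 →
      RationalClass m s → Generated (l * m) (ModularCharacter (l * m))
        ((s.map Prod.fst).map (fun a => ((l * a.val : ℕ) : ZMod (l * m)))) := by
  have hHodge : ∀ s : Multiset (ZMod m × ℤ), s ≠ 0 → Even (Multiset.card s) →
      (∀ z ∈ s, z.1 ≠ 0 ∧ z.2 ≠ 0) → (s.map Prod.fst).sum = 0 → RationalClass m s →
      IsHodge m (s.map Prod.fst) := by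
    intro s hne heven h0 hsum hR
    have hm2 : 2 ≤ m := by
      by_contra hlt
      have hm1 : m = 1 := by have := NeZero.pos m; omega
      subst hm1
      obtain ⟨z, hz⟩ := Multiset.exists_mem_of_ne_zero hne
      exact (h0 z hz).1 (Subsingleton.elim _ _)
    exact hodge_of_rational hm2 (fun z hz => (h0 z hz).1) heven hsum (fun z hz => (h0 z hz).2) hR
  rcases hm with hm | hm
  · obtain ⟨l, hl, _, hgen⟩ := Pool.Agent.N993.main m hm
    refine ⟨l, hl, fun s hne heven h0 hsum hR => ?_⟩
    exact hgen _ (hHodge s hne heven h0 hsum hR) (fun h => hne (Multiset.map_eq_zero.mp h))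
  · obtain ⟨l, hl, hgen⟩ := span_even m hm
    refine ⟨l, hl, fun s hne heven h0 hsum hR => ?_⟩
    have hH := hHodge s hne heven h0 hsum hR
    exact hgen _ hH (fun h => hne (Multiset.map_eq_zero.mp h)) fun p hp hpm hp4 =>
      even_of_rational_class hH hne (fun z hz => (h0 z hz).2) hR hp hpm hp4

end Pool.Agent.N198.TP
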