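import Pool.Agent.N198.TP.Rational
import Pool.Agent.N997.P.Final

/-!
Rational classes with a bounded number of entries.
-/

set_option linter.unusedSectionVars false

namespace Pool.Agent.N198.TP

open Finset Pool.Agent.H916R2 Pool.Agent.N992 Pool.Agent.N993 Pool.Agent.H916K Pool.Agent.N997.P

/-- Odd distributions which kill the base kill everything generated. -/
theorem kill_generated {m : ℕ} [NeZero m] {base : Multiset (ZMod m) → Prop} {Q : Type}
    [AddCommGroup Q] {c : ZMod m → Q} (hc : OddDist c) (hb : ∀ s, base s → (s.map c).sum = 0)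
    {s : Multiset (ZMod m)} (h : Generated m base s) : (s.map c).sum = 0 := by
  induction h with
  | ofBase s hs => exact hb s hs
  | pair a ha =>
    rw [Multiset.insert_eq_cons, Multiset.map_cons, Multiset.sum_cons, Multiset.map_singleton,
      Multiset.sum_singleton, hc.neg, add_neg_cancel]
  | standard q hq hq2 hqm a ha =>
    obtain ⟨d, hd⟩ := hqm
    have hd2 : m / q = d := by rw [hd]; exact Nat.mul_div_cancel_left d hq.pos
    rw [Multiset.map_cons, Multiset.sum_cons, Multiset.map_map, hc.neg, ← hc.dist q d hq hd.symm a,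
      hd2]
    exact neg_add_cancel _
  | standardTwo hm a ha =>
    obtain ⟨d, hd⟩ := hm
    have hd2 : m / 2 = d := by rw [hd]; exact Nat.mul_div_cancel_left d (by norm_num)
    have h1 := hc.dist 2 d Nat.prime_two hd.symm a
    rw [sum_range_succ, sum_range_one] at h1
    have h2 : c (d : ZMod m) = 0 := by
      apply hc.half
      have : ((2 * d : ℕ) : ZMod m) = 0 := by rw [← hd]; simp
      push_cast at this
      linear_combination this
    simp only [Multiset.insert_eq_cons, Multiset.map_cons, Multiset.sum_cons,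
      Multiset.map_singleton, Multiset.sum_singleton, hd2]
    rw [h2, hc.neg]
    push_cast at h1
    rw [← h1, zero_mul, add_zero, one_mul, add_zero]
    abel
  | join s t _ _ h1 h2 => rw [Multiset.map_add, Multiset.sum_add, h1, h2, add_zero]
  | cancel a s _ h1 =>
    rw [Multiset.map_cons, Multiset.sum_cons, Multiset.map_cons, Multiset.sum_cons, hc.neg] at h1
    rw [← h1, ← add_assoc, add_neg_cancel, zero_add]

/-- Hodge characters with even parities, for mutual squares or at most three primes. -/
theorem span_even' (m : ℕ) [NeZero m] (hm : MutualSquares m ∨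
      (m.primeFactors.erase 2).card + (if 4 ∣ m then 1 else 0) ≤ 3) :
    ∃ l : ℕ, ∃ _ : NeZero (l * m), ∀ s : Multiset (ZMod m), IsHodge m s → s ≠ 0 →
      (∀ p : ℕ, p.Prime → p ∣ m → p % 4 = 1 → (s.map (pr p m)).sum = 0) →
      Generated (l * m) (ModularCharacter (l * m)) (s.map (iota l : ZMod m → ZMod (l * m))) := by
  rcases hm with hm | hm
  · obtain ⟨l, hl, _, hgen⟩ := Pool.Agent.N993.main m hm
    exact ⟨l, hl, fun s hs hne _ => hgen s hs hne⟩
  · exact span_even m hm

/-- The main theorem for a bounded number of entries. -/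
theorem main_reduced (r m : ℕ) (hm : 0 < m) (hg : MutualSquares (reducedDegree r m) ∨
      ((reducedDegree r m).primeFactors.erase 2).card +
        (if 4 ∣ reducedDegree r m then 1 else 0) ≤ 3)
    (s : Multiset (ZMod m × ℤ)) (hne : s ≠ 0) (heven : Even (Multiset.card s))
    (hcard : Multiset.card s ≤ 2 * r) (h0 : ∀ z ∈ s, z.1 ≠ 0 ∧ z.2 ≠ 0)
    (hsum : (s.map Prod.fst).sum = 0) (hR : RationalClass m s) :
    ∃ l : ℕ, ∃ _ : NeZero (l * m), Generated (l * m) (ModularCharacter (l * m))
        ((s.map Prod.fst).map (fun a => ((l * a.val : ℕ) : ZMod (l * m)))) := by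
  classical
  have hmz : NeZero m := ⟨hm.ne'⟩
  have hm2 : 2 ≤ m := by
    by_contra hlt
    have hm1 : m = 1 := by omega
    subst hm1
    obtain ⟨z, hz⟩ := Multiset.exists_mem_of_ne_zero hne
    exact (h0 z hz).1 (Subsingleton.elim _ _)
  have hH := hodge_of_rational hm2 (fun z hz => (h0 z hz).1) heven hsum (fun z hz => (h0 z hz).2) hR
  obtain ⟨t, ht⟩ : ∃ t, t = s.map Prod.fst := ⟨_, rfl⟩
  rw [← ht] at hH hsum ⊢
  have htne : t ≠ 0 := fun h => hne (Multiset.map_eq_zero.mp (ht.symm.trans h))
  have hpar : ∀ p : ℕ, p.Prime → p ∣ m → p % 4 = 1 → (t.map (pr p m)).sum = 0 := by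
    intro p hp hpm hp4
    rw [ht] at hH ⊢
    exact even_of_rational_class hH hne (fun z hz => (h0 z hz).2) hR hp hpm hp4
  have hr : 0 < r := by
    rcases Nat.eq_zero_or_pos r with rfl | h
    · exfalso
      apply hne
      rw [← Multiset.card_eq_zero]; omega
    · exact h
  have key := reduce_hodge2 r t hH (by rw [ht, Multiset.card_map]; exact hcard) hr
  have hgm : reducedDegree r m ∣ m := Nat.gcd_dvd_left _ _
  generalize reducedDegree r m = g at key hg hgm
  obtain ⟨s0, L, L', hs0, _, hL, hLL, hid⟩ := key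
  have hg0 : NeZero g := ⟨fun h => by rw [h] at hgm; exact hm.ne' (Nat.eq_zero_of_zero_dvd hgm)⟩
  have hLm : NeZero (L * m) := ⟨Nat.mul_ne_zero hL.ne' hm.ne'⟩
  have hpar0 : ∀ p : ℕ, p.Prime → p ∣ g → p % 4 = 1 → (s0.map (pr p g)).sum = 0 := by
    intro p hp hpg hp4
    have hD : OddDist (pr p (L * m)) := pr_odd hp (by omega)
    have h1 := hid (L * m) rfl (ZMod 2) _ hD
    rw [Multiset.map_map, Multiset.map_map] at h1
    have h2 : (s0.map (pr p (L * m) ∘ iota L')) = s0.map (pr p g) :=
      Multiset.map_congr rfl fun b _ => pr_iota hp hLL.symm b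
    have h3 : (t.map (pr p (L * m) ∘ iota L)) = t.map (pr p m) :=
      Multiset.map_congr rfl fun b _ => pr_iota hp rfl b
    rw [h2, h3, hpar p hp (hpg.trans hgm) hp4] at h1
    exact h1.symm
  obtain ⟨l, hl, hgen⟩ := span_even' g hg
  have hl0 : l ≠ 0 := by rintro rfl; rw [zero_mul] at hl; exact hl.out rfl
  have hM : NeZero (l * L * m) := ⟨Nat.mul_ne_zero (Nat.mul_ne_zero hl0 hL.ne') hm.ne'⟩
  have e1 : l * (L * m) = l * L * m := by ring
  have e2 : L' * (l * g) = l * L * m := by
    rw [mul_assoc, hLL]; ring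
  refine ⟨l * L, hM, ?_⟩
  refine gen_of_kill (M := l * L * m) (g := g) (q' := L' * l)
    (fun s hs => ⟨hs.1.1, hs.1.2.1⟩) (fun s hs => hs.neg) rfl hH htne s0 ?_ ?_
  · intro R _ c hc
    have h1 := hid (L * m) rfl R (fun b => c (iota l b)) (hc.comp_iota e1)
    rw [Multiset.map_map, Multiset.map_map] at h1 ⊢
    have h2 : t.map ((fun b : ZMod (L * m) => c (iota l b)) ∘ iota L) =
        t.map (c ∘ iota (l * L)) := Multiset.map_congr rfl fun b _ => by
      simp only [Function.comp_apply]
      rw [iota_comp e1]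
    have h3 : s0.map ((fun b : ZMod (L * m) => c (iota l b)) ∘ iota L') =
        s0.map (c ∘ iota (L' * l)) := Multiset.map_congr rfl fun b _ => by
      simp only [Function.comp_apply]
      rw [iota_comp e1, mul_comm l L']
    rw [h2, h3] at h1
    exact h1
  · intro R _ c hc hk
    by_cases hs00 : s0 = 0
    · rw [hs00]; simp
    · have h1 := kill_generated (hc.comp_iota e2) (base := ModularCharacter (l * g)) (by
        intro u hu
        have h2 := hk _ (hu.lift e2)
        rw [Multiset.map_map] at h2
        exact h2) (hgen s0 hs0 hs00 hpar0)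
      rw [Multiset.map_map] at h1
      rw [Multiset.map_map, ← h1]
      congr 1
      refine Multiset.map_congr rfl fun b _ => ?_
      simp only [Function.comp_apply]
      rw [iota_comp e2]

end Pool.Agent.N198.TP
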