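import Pool.Agent.N992.Main

/-!
Modular spectra are invariant under the squares of the units.
-/

namespace Pool.Agent.N198.TP

open MatrixGroups Pool.Agent.H916R2 Pool.Agent.N992 Polynomial

/-- an element of `SL(2, ℤ)` which is diagonal modulo `L` -/
lemma exists_diag {a L : ℕ} (h : a.Coprime L) :
    ∃ γ : SL(2, ℤ), γ 0 0 = a ∧ γ 1 0 = L := by
  have h1 : IsCoprime (a : ℤ) ((L : ℤ) * L) := by
    have h2 : IsCoprime (a : ℤ) (L : ℤ) := Nat.isCoprime_iff_coprime.mpr h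
    exact h2.mul_right h2
  obtain ⟨u, w, huw⟩ := h1
  refine ⟨⟨!![(a : ℤ), -(L * w); (L : ℤ), u], ?_⟩, rfl, rfl⟩
  rw [Matrix.det_fin_two_of]
  linear_combination huw

lemma conj_mem {a L : ℕ} {γ : SL(2, ℤ)} (h0 : γ 0 0 = a) (h1 : γ 1 0 = L) :
    γ * ModularGroup.T * γ⁻¹ * (ModularGroup.T ^ (a ^ 2 : ℕ))⁻¹ ∈ CongruenceSubgroup.Gamma L := by
  have hdet : γ 0 0 * γ 1 1 - γ 0 1 * γ 1 0 = 1 := by
    have := γ.det_coe
    rwa [Matrix.det_fin_two] at this
  have hT : (ModularGroup.T : SL(2, ℤ)).1 = !![1, 1; 0, 1] := rfl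
  have hTn : ((ModularGroup.T ^ (a ^ 2 : ℕ) : SL(2, ℤ))⁻¹).1 = !![1, -((a : ℤ) ^ 2); 0, 1] := by
    have e1 : (ModularGroup.T ^ (a ^ 2 : ℕ) : SL(2, ℤ))⁻¹ = ModularGroup.T ^ (-((a : ℤ) ^ 2)) := by
      rw [zpow_neg]
      congr 1
      have := zpow_natCast (ModularGroup.T : SL(2, ℤ)) (a ^ 2)
      rw [← this]; push_cast; rfl
    rw [e1, ModularGroup.coe_T_zpow]
  generalize hp : γ 0 0 = p at h0 hdet
  generalize hq : γ 0 1 = q at hdet
  generalize hr : γ 1 0 = r at h1 hdet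
  generalize hs : γ 1 1 = s at hdet
  have hγ : γ.1 = !![p, q; r, s] := by
    rw [← hp, ← hq, ← hr, ← hs]
    exact Matrix.eta_fin_two _
  have hγi : (γ⁻¹).1 = !![s, -q; -r, p] := by
    rw [Matrix.SpecialLinearGroup.SL2_inv_expl γ, ← hp, ← hq, ← hr, ← hs]
    rfl
  have hm : (γ * ModularGroup.T * γ⁻¹ * (ModularGroup.T ^ (a ^ 2 : ℕ))⁻¹).1 =
      !![(1 : ℤ) - a * L, (a : ℤ) ^ 3 * L; -((L : ℤ) ^ 2), 1 + a * L + (a : ℤ) ^ 2 * L ^ 2] := by
    have e1 : (γ * ModularGroup.T * γ⁻¹ * (ModularGroup.T ^ (a ^ 2 : ℕ))⁻¹).1 =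
        γ.1 * (ModularGroup.T : SL(2, ℤ)).1 * (γ⁻¹).1 *
          ((ModularGroup.T ^ (a ^ 2 : ℕ) : SL(2, ℤ))⁻¹).1 := rfl
    rw [e1, hTn, hγi, hγ, hT]
    simp only [Matrix.mul_fin_two]
    subst h0 h1
    refine congrArg Matrix.of ?_
    refine congrArg₂ Matrix.vecCons (congrArg₂ Matrix.vecCons ?_ (congrArg₂ Matrix.vecCons ?_ rfl))
      (congrArg₂ Matrix.vecCons (congrArg₂ Matrix.vecCons ?_ (congrArg₂ Matrix.vecCons ?_ rfl)) rfl)
    · linear_combination hdet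
    · linear_combination (-(a : ℤ) ^ 2) * hdet
    · ring
    · linear_combination hdet
  have hmod : ((L : ℕ) : ZMod L) = 0 := ZMod.natCast_self L
  have hij : ∀ i j, (γ * ModularGroup.T * γ⁻¹ * (ModularGroup.T ^ (a ^ 2 : ℕ))⁻¹) i j =
      (!![(1 : ℤ) - a * L, (a : ℤ) ^ 3 * L; -((L : ℤ) ^ 2), 1 + a * L + (a : ℤ) ^ 2 * L ^ 2]) i j :=
    fun i j => congrFun (congrFun hm i) j
  rw [CongruenceSubgroup.Gamma_mem, hij, hij, hij, hij]
  refine ⟨?_, ?_, ?_, ?_⟩
  · change (((1 : ℤ) - a * L : ℤ) : ZMod L) = 1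
    push_cast; rw [hmod]; ring
  · change (((a : ℤ) ^ 3 * L : ℤ) : ZMod L) = 0
    push_cast; rw [hmod]; ring
  · change ((-((L : ℤ) ^ 2) : ℤ) : ZMod L) = 0
    push_cast; rw [hmod]; ring
  · change ((1 + a * L + (a : ℤ) ^ 2 * L ^ 2 : ℤ) : ZMod L) = 1
    push_cast; rw [hmod]; ring

/-- Modular spectra are invariant under the squares of the units. -/
theorem spectrum_sq {m : ℕ} [NeZero m] {b : Multiset (ZMod m)} (hb : ModularSpectrum m b)
    (v : (ZMod m)ˣ) : b.map (fun x => (v : ZMod m) ^ 2 * x) = b := by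
  classical
  obtain ⟨n, ρ, e, ⟨L0, hL0, hΓ⟩, _, hT, rfl⟩ := hb
  set L := L0 * m with hL
  have hLne : NeZero L := ⟨Nat.mul_ne_zero hL0 (NeZero.ne m)⟩
  have hmL : m ∣ L := Dvd.intro_left L0 rfl
  obtain ⟨w, hw⟩ := ZMod.unitsMap_surjective hmL v
  set a := (w : ZMod L).val with ha
  have hacop : a.Coprime L := ZMod.val_coe_unit_coprime w
  have hav : ((a : ℕ) : ZMod m) = v := by
    rw [← hw]
    have h1 : ((a : ℕ) : ZMod L) = w := ZMod.natCast_zmod_val _
    have h2 : ((ZMod.unitsMap hmL w : (ZMod m)ˣ) : ZMod m) = ZMod.castHom hmL (ZMod m) (w : ZMod L) := rfl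
    rw [h2, ← h1, map_natCast]
  obtain ⟨γ, hγ0, hγ1⟩ := exists_diag hacop
  have hmem := conj_mem hγ0 hγ1
  have hker : γ * ModularGroup.T * γ⁻¹ * (ModularGroup.T ^ (a ^ 2 : ℕ))⁻¹ ∈ ρ.ker := by
    apply hΓ
    rw [CongruenceSubgroup.Gamma_mem] at hmem ⊢
    have hdvd : L0 ∣ L := Dvd.intro _ rfl
    obtain ⟨h1, h2, h3, h4⟩ := hmem
    refine ⟨?_, ?_, ?_, ?_⟩
    · have := congrArg (ZMod.castHom hdvd (ZMod L0)) h1
      rwa [map_intCast, map_one] at this
    · have := congrArg (ZMod.castHom hdvd (ZMod L0)) h2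
      rwa [map_intCast, map_zero] at this
    · have := congrArg (ZMod.castHom hdvd (ZMod L0)) h3
      rwa [map_intCast, map_zero] at this
    · have := congrArg (ZMod.castHom hdvd (ZMod L0)) h4
      rwa [map_intCast, map_one] at this
  have hconj : ρ γ * ρ ModularGroup.T * ρ γ⁻¹ = ρ ModularGroup.T ^ (a ^ 2) := by
    have h1 : ρ (γ * ModularGroup.T * γ⁻¹) = ρ (ModularGroup.T ^ (a ^ 2 : ℕ)) := by
      have h2 : γ * ModularGroup.T * γ⁻¹ = (γ * ModularGroup.T * γ⁻¹ *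
          (ModularGroup.T ^ (a ^ 2 : ℕ))⁻¹) * ModularGroup.T ^ (a ^ 2 : ℕ) := by
        rw [inv_mul_cancel_right]
      rw [h2, map_mul, MonoidHom.mem_ker.mp hker, one_mul]
    rw [map_mul, map_mul, map_pow] at h1
    exact h1
  -- characteristic polynomials
  let U : (Matrix (Fin n) (Fin n) ℂ)ˣ := ⟨ρ γ, ρ γ⁻¹, by rw [← map_mul, mul_inv_cancel, map_one],
    by rw [← map_mul, inv_mul_cancel, map_one]⟩
  have hchar := Matrix.charpoly_units_conj U (ρ ModularGroup.T)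
  have hU : (U : Matrix (Fin n) (Fin n) ℂ) * ρ ModularGroup.T * (U : Matrix (Fin n) (Fin n) ℂ)⁻¹ =
      ρ ModularGroup.T ^ (a ^ 2) := by
    rw [← hconj]
    congr 1
    exact (Matrix.coe_units_inv U).symm
  rw [hU, hT, Matrix.diagonal_pow, Matrix.charpoly_diagonal, Matrix.charpoly_diagonal] at hchar
  have hroots := congrArg Polynomial.roots hchar
  have key : ∀ d : Fin n → ℂ, (∏ i, (X - C (d i))).roots = Finset.univ.val.map d := by
    intro d
    have h1 : (∏ i, (X - C (d i))) = ((Finset.univ.val.map d).map fun z => X - C z).prod := by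
      rw [Multiset.map_map]; rfl
    rw [h1, Polynomial.roots_multiset_prod_X_sub_C]
  rw [key, key] at hroots
  have hpow : (fun i => ZMod.stdAddChar (e i)) ^ (a ^ 2) =
      fun i => ZMod.stdAddChar ((v : ZMod m) ^ 2 * e i) := by
    funext i
    rw [Pi.pow_apply, ← AddChar.map_nsmul_eq_pow, ← hav]
    congr 1
    rw [nsmul_eq_mul]; push_cast; rfl
  rw [hpow] at hroots
  have h5 : Finset.univ.val.map (fun i => (v : ZMod m) ^ 2 * e i) = Finset.univ.val.map e := by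
    apply Multiset.map_injective (ZMod.injective_stdAddChar (N := m))
    rw [Multiset.map_map, Multiset.map_map]
    exact hroots
  have h6 : ∀ x : ZMod m, (v : ZMod m) ^ 2 * x = 0 ↔ x = 0 := by
    intro x
    constructor
    · intro h
      have h7 : ((v : ZMod m) ^ 2) * ((v⁻¹ : (ZMod m)ˣ) : ZMod m) ^ 2 = 1 := by
        rw [← mul_pow, ← Units.val_mul, mul_inv_cancel, Units.val_one, one_pow]
      calc x = ((v : ZMod m) ^ 2 * ((v⁻¹ : (ZMod m)ˣ) : ZMod m) ^ 2) * x := by rw [h7, one_mul]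
        _ = ((v⁻¹ : (ZMod m)ˣ) : ZMod m) ^ 2 * ((v : ZMod m) ^ 2 * x) := by ring
        _ = 0 := by rw [h, mul_zero]
    · intro h; rw [h, mul_zero]
  calc ((Finset.univ.val.map e).filter (fun a => a ≠ 0)).map (fun x => (v : ZMod m) ^ 2 * x)
      = ((Finset.univ.val.map e).filter ((fun a => a ≠ 0) ∘ fun x => (v : ZMod m) ^ 2 * x)).map
          (fun x => (v : ZMod m) ^ 2 * x) := by
        congr 1
        apply Multiset.filter_congr
        intro x _
        exact (not_congr (h6 x)).symm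
    _ = ((Finset.univ.val.map e).map (fun x => (v : ZMod m) ^ 2 * x)).filter (fun a => a ≠ 0) :=
        (Multiset.filter_map _ _ _).symm
    _ = (Finset.univ.val.map e).filter (fun a => a ≠ 0) := by
        rw [Multiset.map_map]
        exact congrArg _ h5

end Pool.Agent.N198.TP
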