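import Pool.Agent.N198.TP.Pair

/-!
Sets with at most three elements.
-/

set_option linter.unusedSectionVars false

namespace Pool.Agent.N198.TP

open Finset Pool.Agent.H916R2 Pool.Agent.N992 Pool.Agent.N993 Pool.Agent.N998

variable {P : Finset ℕ} {A : ℕ → ℕ}

/-- The choice of nonresidues. -/
def Choice (P : Finset ℕ) (A : ℕ → ℕ) : Prop :=
  ∀ p ∈ P, p.Prime ∧ p % 4 = 1 ∧ (A p).Prime ∧ A p % 4 = 3 ∧ NR p (A p)

lemma Choice.three (h : Choice P A) {p : ℕ} (hp : p ∈ P) : Three (A p) :=
  Or.inl ⟨(h p hp).2.2.1, (h p hp).2.2.2.1⟩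

lemma Choice.ne (h : Choice P A) {p : ℕ} (hp : p ∈ P) : p ≠ A p := by
  intro h1
  have h2 := (h p hp).2.1
  have h3 := (h p hp).2.2.2.1
  omega

/-- the base -/
lemma good_base (hA : Choice P A) {p : ℕ} (hp : p ∈ P) : Good P A {p, A p} := by
  refine good_of_level (l := 1) one_ne_zero ?_
  intro N mT _ _ hmT hN Q _ c hc hk x hx
  rw [prod_pair (hA.ne hp)] at hmT
  exact hk.2 p hp mT 1 hmT hN x hx

lemma good_mixed (hA : Choice P A) {p a : ℕ} (hp : p ∈ P) (ha : Three a) : Good P A {p, a} := by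
  obtain ⟨hpp, hp4, _, _, hnr⟩ := hA p hp
  have hpa : p ≠ a := by rintro rfl; exact ha.mod hp4
  by_cases hna : NR p a
  · exact good_pair_transfer hpp hp4 ha (hA.three hp) hna hnr (good_base hA hp)
  · unfold NR at hna
    rw [not_not] at hna
    refine good_of_squares ?_ ?_
    · intro x hx
      rw [mem_insert, mem_singleton] at hx
      rcases hx with rfl | rfl
      · left; exact ⟨hpp, by omega⟩
      · exact ha.adm
    intro p' hp' hp4'
    have hpp : p' = p := by
      rw [mem_insert, mem_singleton] at hp'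
      rcases hp' with h1 | h1
      · exact h1
      · exact absurd hp4' (h1 ▸ ha.mod)
    subst hpp
    refine ⟨fun j hj hjp => ?_, fun h4 => ?_⟩
    · rw [mem_insert, mem_singleton] at hj
      rcases hj with h1 | h1
      · exact absurd h1 hjp
      · subst h1
        by_cases h4 : j = 4
        · rw [h4]; exact ⟨2, by push_cast; norm_num⟩
        · rwa [if_neg h4] at hna
    · rw [mem_insert, mem_singleton] at h4
      rcases h4 with h1 | h1
      · omega
      · rwa [if_pos h1.symm] at hna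

lemma good_ones (hA : Choice P A) {p r : ℕ} (hp : p ∈ P) (hr : r ∈ P) (hpr : p ≠ r) :
    Good P A {p, r} := by
  obtain ⟨hpp, hp4, _, _, hnp⟩ := hA p hp
  obtain ⟨hrp, hr4, _, _, hnr⟩ := hA r hr
  have : Fact p.Prime := ⟨hpp⟩
  have : Fact r.Prime := ⟨hrp⟩
  have hrec : IsSquare ((r : ℕ) : ZMod p) ↔ IsSquare ((p : ℕ) : ZMod r) :=
    ZMod.exists_sq_eq_prime_iff_of_mod_four_eq_one hp4 (by omega)
  by_cases hsq : IsSquare ((r : ℕ) : ZMod p)
  · refine good_of_squares ?_ ?_
    · intro x hx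
      rw [mem_insert, mem_singleton] at hx
      rcases hx with rfl | rfl
      · left; exact ⟨hpp, by omega⟩
      · left; exact ⟨hrp, by omega⟩
    intro p' hp' _
    refine ⟨fun j hj hjp => ?_, fun h4 => ?_⟩
    · rw [mem_insert, mem_singleton] at hp' hj
      rcases hp' with h1 | h1 <;> rcases hj with h2 | h2
      · exact absurd (h2.trans h1.symm) hjp
      · rw [h1, h2]; exact hsq
      · rw [h1, h2]; exact hrec.mp hsq
      · exact absurd (h2.trans h1.symm) hjp
    · rw [mem_insert, mem_singleton] at h4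
      omega
  · exact good_two_primes hpp hp4 hrp hr4 hpr hsq (hA.three hp) hnp (good_base hA hp)
      (hA.three hr) hnr (good_base hA hr)

/-- The sets we consider. -/
structure Adm (P S : Finset ℕ) : Prop where
  adm : ∀ x ∈ S, (x.Prime ∧ x % 2 = 1) ∨ x = 4
  one : ∀ p ∈ S, p.Prime → p % 4 = 1 → p ∈ P

lemma Adm.mono {S T : Finset ℕ} (h : Adm P S) (hT : T ⊆ S) : Adm P T where
  adm := fun x hx => h.adm x (hT hx)
  one := fun x hx => h.one x (hT hx)

lemma good_pair (hA : Choice P A) {x y : ℕ} (hxy : x ≠ y) (h : Adm P {x, y}) :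
    Good P A {x, y} := by
  have hx := h.adm x (mem_insert_self _ _)
  have hy := h.adm y (mem_insert_of_mem (mem_singleton_self _))
  have key : ∀ {z : ℕ}, z ∈ ({x, y} : Finset ℕ) → (z.Prime ∧ z % 2 = 1) ∨ z = 4 →
      z ∈ P ∨ Three z := by
    intro z hzm hz
    rcases hz with hz | hz
    · by_cases h1 : z % 4 = 1
      · left; exact h.one z hzm hz.1 h1
      · right; left; exact ⟨hz.1, by omega⟩
    · right; right; exact hz
  rcases key (mem_insert_self _ _) hx with hx1 | hx1 <;>
    rcases key (mem_insert_of_mem (mem_singleton_self _)) hy with hy1 | hy1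
  · exact good_ones hA hx1 hy1 hxy
  · exact good_mixed hA hx1 hy1
  · rw [pair_comm]
    exact good_mixed hA hy1 hx1
  · refine good_of_squares h.adm ?_
    intro p hp hp4
    rw [mem_insert, mem_singleton] at hp
    rcases hp with rfl | rfl
    · exact absurd hp4 hx1.mod
    · exact absurd hp4 hy1.mod

theorem good_three (hA : Choice P A) {S : Finset ℕ} (hcard : S.card ≤ 3) (h : Adm P S) :
    Good P A S := by
  refine good_of_even h.adm fun T hT heven => ?_
  have hTc : T.card ≤ 3 := (card_le_card hT).trans hcard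
  have h2 : T.card = 0 ∨ T.card = 2 := by
    obtain ⟨r, hr⟩ := heven
    omega
  rcases h2 with h2 | h2
  · rw [card_eq_zero] at h2
    subst h2
    exact good_of_squares (fun x hx => absurd hx (notMem_empty _))
      (fun x hx => absurd hx (notMem_empty _))
  · obtain ⟨x, y, hxy, rfl⟩ := card_eq_two.mp h2
    exact good_pair hA hxy (h.mono hT)

/-- There is a choice of nonresidues. -/
theorem exists_choice (P : Finset ℕ) (hP : ∀ p ∈ P, p.Prime ∧ p % 4 = 1) :
    ∃ A : ℕ → ℕ, Choice P A ∧ ∀ p ∈ P, ¬ IsSquare ((A p : ℕ) : ZMod p) := by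
  classical
  have key : ∀ p, ∃ q, p ∈ P → q.Prime ∧ q % 4 = 3 ∧ ¬ IsSquare ((q : ℕ) : ZMod p) := by
    intro p
    by_cases hp : p ∈ P
    · obtain ⟨q, hq, hq8, _, _, hnr⟩ := exists_aux (U0 := ∅) (p := p)
        (fun x hx => absurd hx (notMem_empty _)) (hP p hp).1 (hP p hp).2 (notMem_empty _)
      exact ⟨q, fun _ => ⟨hq, by omega, hnr⟩⟩
    · exact ⟨0, fun h => absurd h hp⟩
  choose A hA using key
  refine ⟨A, fun p hp => ⟨(hP p hp).1, (hP p hp).2, (hA p hp).1, (hA p hp).2.1, ?_⟩,
    fun p hp => (hA p hp).2.2⟩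
  unfold NR
  rw [if_neg (by have := (hA p hp).2.1; intro h; omega)]
  exact (hA p hp).2.2

end Pool.Agent.N198.TP
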